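import Mathlib
import Pool.Agent.Q7.LeonardDefs

/-!
# Orderings of the eigenvalue sequence of a real Leonard system: statements
-/

set_option autoImplicit false

universe u

namespace Q7.LO

open Q7.Leonard Module

/-- `θ i - β θ (i+1) + θ (i+2) = γ` whenever `i + 2 ≤ d`. -/
def Rec (d : ℕ) (β γ : ℝ) (θ : ℕ → ℝ) : Prop :=
  ∀ i : ℕ, i + 2 ≤ d → θ i - β * θ (i + 1) + θ (i + 2) = γ

/-- `σ 0, σ 1, …, σ d` lists the indices `0, …, d` in the order of decreasing values of `θ`. -/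
def Sorts {d : ℕ} (σ : Equiv.Perm (Fin (d + 1))) (θ : ℕ → ℝ) : Prop :=
  StrictAnti fun i : Fin (d + 1) => θ (σ i : ℕ)

/-- the order of a sequence `cos (ω j + φ)` with real `ω`, `φ` -/
def RealRot {d : ℕ} (σ : Equiv.Perm (Fin (d + 1))) : Prop :=
  ∃ ω φ : ℝ, Sorts σ fun j => Real.cos (ω * j + φ)

/-- The distance of the integer `x` to the nearest multiple of `4 n`. -/
def circDist (n x : ℕ) : ℕ := min (x % (4 * n)) (4 * n - x % (4 * n))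

/-- The order given by the distances of the integers `4 m j + l` to the nearest multiple of `4 n`,
where `m / n` is a reduced fraction with `2 d + 2 ≤ n ≤ 4 d + 2` and `l` is odd. -/
def Rotational {d : ℕ} (σ : Equiv.Perm (Fin (d + 1))) : Prop :=
  ∃ n m l : ℕ, 2 * d + 2 ≤ n ∧ n ≤ 4 * d + 2 ∧ m < n ∧ Nat.Coprime m n ∧ l < 4 * n ∧ Odd l ∧
    StrictMono fun i : Fin (d + 1) => circDist n (4 * m * (σ i : ℕ) + l)

/-- The order of one of the `2 d` sequences `± (-1) ^ j (2 j - 2 k - 1) ^ 2`, `0 ≤ k < d`. -/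
def Alternating {d : ℕ} (σ : Equiv.Perm (Fin (d + 1))) : Prop :=
  ∃ k : ℕ, k < d ∧ ∃ ε : ℤ, (ε = 1 ∨ ε = -1) ∧
    StrictAnti fun i : Fin (d + 1) =>
      ε * (-1) ^ (σ i : ℕ) * (2 * ((σ i : ℕ) : ℤ) - 2 * k - 1) ^ 2

/-! ### Necessity -/

/-- JOB REC: the eigenvalue sequence of a Leonard system satisfies a three term recurrence. -/
def SREC : Prop :=
  ∀ (d : ℕ) (V : Type u) [AddCommGroup V] [Module ℝ V], finrank ℝ V = d + 1 →
    ∀ (A As : End ℝ V) (θ θs : Fin (d + 1) → ℝ), IsLeonardSystem A As θ θs →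
      ∃ β γ : ℝ, ∀ (i : ℕ) (hi : i + 2 ≤ d),
        θ ⟨i, by omega⟩ - β * θ ⟨i + 1, by omega⟩ + θ ⟨i + 2, by omega⟩ = γ

/-- JOB TRIG: the case `|β| < 2`. -/
def STRIG : Prop :=
  ∀ (d : ℕ) (β γ : ℝ) (θ : ℕ → ℝ) (σ : Equiv.Perm (Fin (d + 1))), -2 < β → β < 2 →
    Rec d β γ θ → Sorts σ θ → RealRot σ

/-- JOB HYP: the case `β ≥ 2`. -/
def SHYP : Prop :=
  ∀ (d : ℕ) (β γ : ℝ) (θ : ℕ → ℝ) (σ : Equiv.Perm (Fin (d + 1))), 2 ≤ β →
    Rec d β γ θ → Sorts σ θ → RealRot σ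

/-- JOB ALT: the case `β ≤ -2`. -/
def SALT : Prop :=
  ∀ (d : ℕ) (β γ : ℝ) (θ : ℕ → ℝ) (σ : Equiv.Perm (Fin (d + 1))), β ≤ -2 →
    Rec d β γ θ → Sorts σ θ → RealRot σ ∨ Alternating σ

/-- JOB GEN: the parameter `ω / (2 π)` can be chosen such that it is not a fraction with
denominator at most `N`. -/
def SGEN : Prop :=
  ∀ (d N : ℕ) (σ : Equiv.Perm (Fin (d + 1))), RealRot σ →
    ∃ α δ : ℝ, (∀ k : ℕ, 1 ≤ k → k ≤ N → ∀ z : ℤ, α * k ≠ z) ∧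
      Sorts σ fun j => Real.cos (2 * Real.pi * (α * j) + Real.pi * δ)

/-- JOB FAREY: a fraction with denominator in `(N, 2 N]` which lies in the same cell as `α`. -/
def SFAREY : Prop :=
  ∀ (N : ℕ) (α : ℝ), 1 ≤ N → (∀ k : ℕ, 1 ≤ k → k ≤ N → ∀ z : ℤ, α * k ≠ z) →
    ∃ (m : ℤ) (n : ℕ), N < n ∧ n ≤ 2 * N ∧ Int.gcd m n = 1 ∧
      ∀ k : ℕ, 1 ≤ k → k ≤ N →
        (⌊α * k⌋ : ℝ) < (m : ℝ) * k / n ∧ (m : ℝ) * k / n < ⌊α * k⌋ + 1

/-- JOB CELL: the discrete parameters `m / n`, `l / (2 n)` give the same order as `α`, `δ`. -/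
def SCELL : Prop :=
  ∀ (d n : ℕ) (m : ℤ) (α δ : ℝ) (σ : Equiv.Perm (Fin (d + 1))), 2 * d + 2 ≤ n →
    Int.gcd m n = 1 →
    (∀ k : ℕ, 1 ≤ k → k ≤ 2 * d + 1 → ∀ z : ℤ, α * k ≠ z) →
    (∀ k : ℕ, 1 ≤ k → k ≤ 2 * d + 1 →
        (⌊α * k⌋ : ℝ) < (m : ℝ) * k / n ∧ (m : ℝ) * k / n < ⌊α * k⌋ + 1) →
    Sorts σ (fun j => Real.cos (2 * Real.pi * (α * j) + Real.pi * δ)) →
    ∃ l : ℤ, Odd l ∧ Sorts σ fun j => Real.cos (Real.pi * (4 * m * j + l) / (2 * n))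

/-- JOB DIST: from cosines to integer distances. -/
def SDIST : Prop :=
  ∀ (d n : ℕ) (m l : ℤ) (σ : Equiv.Perm (Fin (d + 1))), 0 < n → Odd l →
    (Sorts σ fun j => Real.cos (Real.pi * (4 * m * j + l) / (2 * n))) →
    ∃ m' l' : ℕ, m' < n ∧ (m' : ℤ) ≡ m [ZMOD n] ∧ l' < 4 * n ∧ Odd l' ∧
      StrictMono fun i : Fin (d + 1) => circDist n (4 * m' * (σ i : ℕ) + l')

/-! ### Sufficiency -/

/-- An extended recurrent sequence which is ordered by `σ` on `0, …, d`. -/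
def Good {d : ℕ} (σ : Equiv.Perm (Fin (d + 1))) : Prop :=
  ∃ (θ : ℤ → ℝ) (β γ : ℝ), (∀ i : ℤ, θ (i - 1) - β * θ i + θ (i + 1) = γ) ∧
    (Sorts σ fun j => θ j) ∧ θ (d + 1) ≠ θ 0

/-- JOB ROTG: the rotational orders come from extended recurrent sequences. -/
def SROTG : Prop := ∀ (d : ℕ) (σ : Equiv.Perm (Fin (d + 1))), Rotational σ → Good σ

/-- JOB ALTG: the alternating orders come from extended recurrent sequences. -/
def SALTG : Prop := ∀ (d : ℕ) (σ : Equiv.Perm (Fin (d + 1))), Alternating σ → Good σ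

/-- the sums `∑_{h < i} (θ h - θ (d - h))` -/
noncomputable def ssum (d : ℕ) (θ : ℤ → ℝ) (i : ℕ) : ℝ :=
  ∑ h ∈ Finset.range i, (θ h - θ (d - h))

/-- the parameters of the split form -/
noncomputable def phi (d : ℕ) (θ : ℤ → ℝ) (x : ℝ) (i : ℕ) : ℝ :=
  x * ssum d θ i + (θ i - θ 0) * (θ (i - 1) - θ d)

/-- JOB ID: the two algebraic identities. -/
def SID : Prop :=
  ∀ (d : ℕ) (θ : ℤ → ℝ) (β γ x : ℝ), (∀ i : ℤ, θ (i - 1) - β * θ i + θ (i + 1) = γ) →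
    phi d θ x 0 = 0 ∧ phi d θ x (d + 1) = 0 ∧ ∃ ω η ρ : ℝ,
      (∀ i : ℤ, θ i ^ 2 - β * θ i * θ (i + 1) + θ (i + 1) ^ 2 - γ * (θ i + θ (i + 1)) = ρ) ∧
      (∀ i : ℕ, θ i * (θ i + θ (i + 1)) + phi d θ x i -
        β * (θ i ^ 2 + phi d θ x (i + 1) + θ (i + 1) ^ 2) + (θ i + θ (i + 1)) * θ (i + 1) +
        phi d θ x (i + 2) - γ * (θ i + θ (i + 1)) = γ * (θ i + θ (i + 1)) + ω) ∧
      (∀ i : ℕ, phi d θ x i * (θ i - θ (i + 1)) + phi d θ x (i + 1) * (θ i - θ (i - 1)) +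
        θ i * (θ i - θ (i - 1)) * (θ i - θ (i + 1)) = γ * θ i ^ 2 + ω * θ i + η)

/-- JOB X: a parameter `x` for which the parameters of both split forms are nonzero. -/
def SX : Prop :=
  ∀ (d : ℕ) (θ : ℤ → ℝ), (∀ i j : ℕ, i ≤ d → j ≤ d → θ i = θ j → i = j) →
    ∃ x : ℝ, ∀ i : ℕ, 1 ≤ i → i ≤ d → phi d θ x i ≠ 0 ∧
      phi d θ x i ≠ ssum d θ i * (θ i - θ (i - 1))

/-- The pair `A`, `As` in split form: `A` is lower bidiagonal and `As` is upper bidiagonal in the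
basis `u 0, …, u d`; the vectors `u i` with `i > d` are zero. -/
structure Split {V : Type u} [AddCommGroup V] [Module ℝ V] (d : ℕ) (θ φ : ℕ → ℝ) (w : ℕ → V)
    (A As : End ℝ V) : Prop where
  /-- `w 0, …, w d` is a basis -/
  basis : ∃ b : Basis (Fin (d + 1)) ℝ V, ∀ i : Fin (d + 1), b i = w i
  /-- the other vectors are zero -/
  zero : ∀ i, d < i → w i = 0
  /-- action of `A` -/
  hA : ∀ i, A (w i) = θ i • w i + w (i + 1)
  /-- action of `As` -/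
  hAs0 : As (w 0) = θ 0 • w 0
  /-- action of `As` -/
  hAs : ∀ i, As (w (i + 1)) = θ (i + 1) • w (i + 1) + φ (i + 1) • w i

/-- JOB SPLIT: existence of the split form. -/
def SSPLIT : Prop :=
  ∀ (d : ℕ) (V : Type u) [AddCommGroup V] [Module ℝ V], finrank ℝ V = d + 1 →
    ∀ θ φ : ℕ → ℝ, φ (d + 1) = 0 → ∃ (w : ℕ → V) (A As : End ℝ V), Split d θ φ w A As

/-- JOB MF: the two maps of a split form are multiplicity-free. -/
def SMF : Prop :=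
  ∀ (d : ℕ) (V : Type u) [AddCommGroup V] [Module ℝ V] (θ φ : ℕ → ℝ) (w : ℕ → V)
    (A As : End ℝ V), Split d θ φ w A As → (∀ i j : ℕ, i ≤ d → j ≤ d → θ i = θ j → i = j) →
    MultiplicityFree A (fun i : Fin (d + 1) => θ i) ∧
      MultiplicityFree As (fun i : Fin (d + 1) => θ i)

/-- JOB AW: the Askey-Wilson relation. -/
def SAW : Prop :=
  ∀ (d : ℕ) (V : Type u) [AddCommGroup V] [Module ℝ V] (θ φ : ℕ → ℝ) (w : ℕ → V)
    (A As : End ℝ V) (β γ ρ ω η : ℝ), Split d θ φ w A As →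
    (∀ i, θ i - β * θ (i + 1) + θ (i + 2) = γ) →
    (∀ i, θ i ^ 2 - β * θ i * θ (i + 1) + θ (i + 1) ^ 2 - γ * (θ i + θ (i + 1)) = ρ) →
    (∀ i, θ (i + 1) * (θ (i + 1) + θ (i + 2)) + φ (i + 1) -
        β * (θ (i + 1) ^ 2 + φ (i + 2) + θ (i + 2) ^ 2) + (θ (i + 1) + θ (i + 2)) * θ (i + 2) +
        φ (i + 3) - γ * (θ (i + 1) + θ (i + 2)) = γ * (θ (i + 1) + θ (i + 2)) + ω) →
    (θ 0 * (θ 0 + θ 1) - β * (θ 0 ^ 2 + φ 1 + θ 1 ^ 2) + (θ 0 + θ 1) * θ 1 +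
        φ 2 - γ * (θ 0 + θ 1) = γ * (θ 0 + θ 1) + ω) →
    (∀ i, φ (i + 1) * (θ (i + 1) - θ (i + 2)) + φ (i + 2) * (θ (i + 1) - θ i) +
        θ (i + 1) * (θ (i + 1) - θ i) * (θ (i + 1) - θ (i + 2)) =
          γ * θ (i + 1) ^ 2 + ω * θ (i + 1) + η) →
    (φ 1 * (θ 0 - (γ + β * θ 0 - θ 1)) + θ 0 * (θ 0 - (γ + β * θ 0 - θ 1)) * (θ 0 - θ 1) =
          γ * θ 0 ^ 2 + ω * θ 0 + η) →
    A * A * As - β • (A * As * A) + As * A * A - γ • (A * As + As * A) - ρ • As =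
      γ • (A * A) + ω • A + η • (1 : End ℝ V)

/-- JOB ZERO: the relation makes `As` tridiagonal in the eigenbasis of `A`. -/
def SZERO : Prop :=
  ∀ (d : ℕ) (V : Type u) [AddCommGroup V] [Module ℝ V], finrank ℝ V = d + 1 →
    ∀ (θ : ℤ → ℝ) (A As : End ℝ V) (β γ ρ ω η : ℝ),
    MultiplicityFree A (fun i : Fin (d + 1) => θ (i : ℕ)) →
    (∀ i : ℤ, θ (i - 1) - β * θ i + θ (i + 1) = γ) →
    (∀ i : ℤ, θ i ^ 2 - β * θ i * θ (i + 1) + θ (i + 1) ^ 2 - γ * (θ i + θ (i + 1)) = ρ) →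
    θ (d + 1) ≠ θ 0 →
    A * A * As - β • (A * As * A) + As * A * A - γ • (A * As + As * A) - ρ • As =
      γ • (A * A) + ω • A + η • (1 : End ℝ V) →
    ∀ i j : Fin (d + 1), ((i : ℕ) + 1 < j ∨ (j : ℕ) + 1 < i) →
      primIdem A (fun i : Fin (d + 1) => θ (i : ℕ)) i * As *
        primIdem A (fun i : Fin (d + 1) => θ (i : ℕ)) j = 0

/-- JOB UP: the entries above the diagonal are nonzero. -/
def SUP : Prop :=
  ∀ (d : ℕ) (V : Type u) [AddCommGroup V] [Module ℝ V] (θ φ : ℕ → ℝ) (w : ℕ → V)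
    (A As : End ℝ V), Split d θ φ w A As → (∀ i j : ℕ, i ≤ d → j ≤ d → θ i = θ j → i = j) →
    (∀ i : ℕ, 1 ≤ i → i ≤ d → φ i ≠ 0) →
    (∀ i j : Fin (d + 1), ((i : ℕ) + 1 < j ∨ (j : ℕ) + 1 < i) →
      primIdem A (fun i : Fin (d + 1) => θ (i : ℕ)) i * As *
        primIdem A (fun i : Fin (d + 1) => θ (i : ℕ)) j = 0) →
    ∀ i j : Fin (d + 1), (i : ℕ) + 1 = j →
      primIdem A (fun i : Fin (d + 1) => θ (i : ℕ)) i * As *
        primIdem A (fun i : Fin (d + 1) => θ (i : ℕ)) j ≠ 0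

/-- JOB LOW: the entries below the diagonal are nonzero. -/
def SLOW : Prop :=
  ∀ (d : ℕ) (V : Type u) [AddCommGroup V] [Module ℝ V] (θ φ : ℕ → ℝ) (w : ℕ → V)
    (A As : End ℝ V), Split d θ φ w A As → (∀ i j : ℕ, i ≤ d → j ≤ d → θ i = θ j → i = j) →
    (∀ i : ℕ, 1 ≤ i → i ≤ d →
      φ i ≠ (∑ h ∈ Finset.range i, (θ h - θ (d - h))) * (θ i - θ (i - 1))) →
    (∀ i j : Fin (d + 1), ((i : ℕ) + 1 < j ∨ (j : ℕ) + 1 < i) →
      primIdem A (fun i : Fin (d + 1) => θ (i : ℕ)) i * As *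
        primIdem A (fun i : Fin (d + 1) => θ (i : ℕ)) j = 0) →
    ∀ i j : Fin (d + 1), (j : ℕ) + 1 = i →
      primIdem A (fun i : Fin (d + 1) => θ (i : ℕ)) i * As *
        primIdem A (fun i : Fin (d + 1) => θ (i : ℕ)) j ≠ 0

/-- JOB DUAL: the split form with nonzero `φ i` has an anti-automorphism which exchanges `A` and
`As`. -/
def SDUAL : Prop :=
  ∀ (d : ℕ) (V : Type u) [AddCommGroup V] [Module ℝ V] (θ φ : ℕ → ℝ) (w : ℕ → V)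
    (A As : End ℝ V), Split d θ φ w A As → (∀ i : ℕ, 1 ≤ i → i ≤ d → φ i ≠ 0) →
    ∃ τ : End ℝ V ≃ₐ[ℝ] (End ℝ V)ᵐᵒᵖ, τ A = MulOpposite.op As ∧ τ As = MulOpposite.op A

end Q7.LO
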