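import Mathlib
import Pool.Agent.Q7.LO.Stm

set_option autoImplicit false

namespace Q7.LO

theorem Sorts.inj {d : ℕ} {σ : Equiv.Perm (Fin (d + 1))} {θ : ℕ → ℝ} (h : Sorts σ θ) {i j : ℕ}
    (hi : i ≤ d) (hj : j ≤ d) (hij : θ i = θ j) : i = j := by
  have := h.injective (a₁ := σ.symm ⟨i, by omega⟩) (a₂ := σ.symm ⟨j, by omega⟩)
    (by simpa using hij)
  exact congrArg Fin.val (σ.symm.injective this)

/-- for `d ≤ 1` every order is rotational -/
theorem realRot_small {d : ℕ} (hd : d ≤ 1) (σ : Equiv.Perm (Fin (d + 1))) : RealRot σ := by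
  refine ⟨Real.pi, Real.pi * (σ 0 : ℕ), fun i j hij => ?_⟩
  have hi : i = 0 := Fin.ext (by
    have h1 : (i : ℕ) < j := hij
    have h2 := j.2
    have h0 : ((0 : Fin (d + 1)) : ℕ) = 0 := rfl
    omega)
  subst hi
  have hj : ((σ j : Fin (d + 1)) : ℕ) = (σ 0 : Fin (d + 1)) + 1 ∨
      ((σ 0 : Fin (d + 1)) : ℕ) = (σ j : Fin (d + 1)) + 1 := by
    have h1 : ((σ j : Fin (d + 1)) : ℕ) ≠ ((σ 0 : Fin (d + 1)) : ℕ) := fun h =>
      hij.ne' (σ.injective (Fin.ext h))
    have h2 := (σ j).2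
    have h3 := (σ 0).2
    omega
  have e1 : ∀ n : ℕ, Real.cos (Real.pi * n + Real.pi * n) = 1 := by
    intro n
    rw [show Real.pi * n + Real.pi * n = n * (2 * Real.pi) by ring]
    exact Real.cos_nat_mul_two_pi n
  simp only
  rw [e1]
  rcases hj with hj | hj
  · rw [hj]
    push_cast
    rw [show Real.pi * (((σ 0 : Fin (d + 1)) : ℕ) + 1 : ℝ) + Real.pi * ((σ 0 : Fin (d + 1)) : ℕ) =
      (Real.pi * ((σ 0 : Fin (d + 1)) : ℕ) + Real.pi * ((σ 0 : Fin (d + 1)) : ℕ)) + Real.pi by ring,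
      Real.cos_add_pi, e1]
    norm_num
  · rw [hj]
    push_cast
    rw [show Real.pi * (((σ j : Fin (d + 1)) : ℕ) : ℝ) +
        Real.pi * ((((σ j : Fin (d + 1)) : ℕ) : ℝ) + 1) =
      (Real.pi * ((σ j : Fin (d + 1)) : ℕ) + Real.pi * ((σ j : Fin (d + 1)) : ℕ)) + Real.pi by ring,
      Real.cos_add_pi, e1]
    norm_num

theorem tTrig : STRIG := by
  intro d β γ θ σ hb1 hb2 hrec hs
  rcases Nat.lt_or_ge d 2 with hd | hd
  · exact realRot_small (by omega) σ
  set ω := Real.arccos (β / 2) with hω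
  have hcos : Real.cos ω = β / 2 := Real.cos_arccos (by linarith) (by linarith)
  have hω0 : 0 < ω := Real.arccos_pos.2 (by linarith)
  have hωpi : ω < Real.pi := by
    rcases (Real.arccos_le_pi (β / 2)).lt_or_eq with h | h
    · exact h
    · rw [Real.arccos_eq_pi] at h
      linarith
  have hsin : 0 < Real.sin ω := Real.sin_pos_of_pos_of_lt_pi hω0 hωpi
  set η := γ / (2 - β) with hη
  have hηγ : η * (2 - β) = γ := div_mul_cancel₀ _ (by linarith)
  set a := θ 0 - η with ha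
  set b := ((θ 1 - η) - a * Real.cos ω) / Real.sin ω with hb
  have hb' : b * Real.sin ω = (θ 1 - η) - a * Real.cos ω := div_mul_cancel₀ _ hsin.ne'
  have sol : ∀ i : ℕ, i ≤ d → θ i = η + (a * Real.cos (ω * i) + b * Real.sin (ω * i)) := by
    intro i
    induction i using Nat.strong_induction_on with
    | _ i ih =>
      intro hi
      rcases i with _ | _ | i
      · simp [ha]
      · simp only [zero_add, Nat.cast_one, mul_one]
        linarith
      · have h1 := ih i (by omega) (by omega)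
        have h2 := ih (i + 1) (by omega) (by omega)
        have h3 := hrec i hi
        have e1 : ω * ((i + 2 : ℕ) : ℝ) = ω * ((i + 1 : ℕ) : ℝ) + ω := by push_cast; ring
        have e2 : ω * (i : ℝ) = ω * ((i + 1 : ℕ) : ℝ) - ω := by push_cast; ring
        rw [e2, Real.cos_sub, Real.sin_sub, hcos] at h1
        rw [show i + 1 + 1 = i + 2 by ring, e1, Real.cos_add, Real.sin_add, hcos]
        rw [h2] at h3
        rw [h1] at h3
        linear_combination h3 - hηγ
  -- polar coordinates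
  obtain ⟨K, φ, hK0, hKa, hKb⟩ : ∃ K φ : ℝ, 0 ≤ K ∧ K * Real.cos φ = a ∧
      K * Real.sin φ = -b :=
    ⟨‖(⟨a, -b⟩ : ℂ)‖, Complex.arg ⟨a, -b⟩, norm_nonneg _, Complex.norm_mul_cos_arg _,
      Complex.norm_mul_sin_arg _⟩
  have sol2 : ∀ i : ℕ, i ≤ d → θ i = η + K * Real.cos (ω * i + φ) := by
    intro i hi
    rw [sol i hi, Real.cos_add, ← hKa]
    linear_combination (Real.sin (ω * i)) * hKb
  refine ⟨ω, φ, fun i j hij => ?_⟩
  have h1 := hs hij
  simp only at h1 ⊢
  rw [sol2 _ (by omega), sol2 _ (by omega)] at h1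
  have h2 : K * Real.cos (ω * ((σ j : Fin (d + 1)) : ℕ) + φ) <
      K * Real.cos (ω * ((σ i : Fin (d + 1)) : ℕ) + φ) := by linarith
  exact lt_of_mul_lt_mul_left h2 hK0

end Q7.LO
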