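import Mathlib
import Pool.Agent.Q7.LO.Stm
import Pool.Agent.Q7.LO.Trig

set_option autoImplicit false

namespace Q7.LO

theorem alternating_of {d : ℕ} {σ : Equiv.Perm (Fin (d + 1))} {θ : ℕ → ℝ} (hd : 1 ≤ d)
    (ε : ℤ) (hε : ε = 1 ∨ ε = -1) (G : ℕ → ℝ) (hG : Monotone G) (hσ : Sorts σ θ)
    (same : ∀ i j : ℕ, j < i → i ≤ d → Even (i + j) →
      ∃ c : ℝ, 0 < c ∧ θ i - θ j = ((ε * (-1) ^ i : ℤ) : ℝ) * (c * G (i + j)))
    (diff : ∀ i j : ℕ, i ≤ d → j ≤ d → Odd (i + j) →
      0 < ((ε * (-1) ^ i : ℤ) : ℝ) * (θ i - θ j)) : Alternating σ := by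
  classical
  set k := Nat.findGreatest (fun k => k = 0 ∨ G (2 * k) < 0) (d - 1) with hk
  have hkd : k ≤ d - 1 := Nat.findGreatest_le _
  have hk1 : k = 0 ∨ G (2 * k) < 0 :=
    Nat.findGreatest_spec (P := fun k => k = 0 ∨ G (2 * k) < 0) (Nat.zero_le _) (Or.inl rfl)
  have hk2 : ∀ k', k < k' → k' ≤ d - 1 → 0 ≤ G (2 * k') := by
    intro k' h1 h2
    have := Nat.findGreatest_is_greatest h1 h2
    push Not at this
    exact this.2
  have sgn : ∀ s : ℕ, ε * (-1) ^ s = 1 ∨ ε * (-1) ^ s = -1 := by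
    intro s
    rcases hε with rfl | rfl <;> rcases neg_one_pow_eq_or ℤ s with h | h <;> simp [h]
  have parE : ∀ i j : ℕ, Even (i + j) → ε * (-1) ^ i = ε * (-1) ^ j := by
    intro i j h
    congr 1
    rcases Nat.even_add.1 h with ⟨h1, h2⟩
    by_cases hi : Even i
    · rw [hi.neg_one_pow, (h1 hi).neg_one_pow]
    · rw [(Nat.not_even_iff_odd.1 hi).neg_one_pow,
        (Nat.not_even_iff_odd.1 fun hj => hi (h2 hj)).neg_one_pow]
  have parO : ∀ i j : ℕ, Odd (i + j) → ε * (-1) ^ i = -(ε * (-1) ^ j) := by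
    intro i j h
    have := parE (i + 1) j (by
      rw [show i + 1 + j = i + j + 1 by ring]
      exact h.add_one)
    rw [pow_succ] at this
    linarith
  -- sign of `G` at even arguments
  have key : ∀ i j : ℕ, j < i → i ≤ d → Even (i + j) →
      0 < (((i : ℤ) + j - 2 * k - 1 : ℤ) : ℝ) * G (i + j) := by
    intro i j hij hi he
    obtain ⟨r, hr⟩ := he
    have hne : G (i + j) ≠ 0 := by
      intro h0
      obtain ⟨c, hc, h1⟩ := same i j hij hi ⟨r, hr⟩
      rw [h0, mul_zero, mul_zero] at h1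
      have := hσ.inj hi (by omega) (sub_eq_zero.1 h1)
      omega
    rcases Nat.lt_or_ge k r with h | h
    · have h1 := hk2 r h (by omega)
      have h2 : 0 < G (i + j) := lt_of_le_of_ne (by rw [hr, ← two_mul]; exact h1) hne.symm
      refine mul_pos ?_ h2
      have : (0 : ℤ) < (i : ℤ) + j - 2 * k - 1 := by omega
      exact_mod_cast this
    · have h1 : G (2 * k) < 0 := hk1.resolve_left (by omega)
      have h2 : G (i + j) < 0 := lt_of_le_of_lt (hG (by omega)) h1
      refine mul_pos_of_neg_of_neg ?_ h2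
      have : (i : ℤ) + j - 2 * k - 1 < 0 := by omega
      exact_mod_cast this
  refine ⟨k, by omega, ε, hε, fun a b hab => ?_⟩
  have h0 := hσ hab
  simp only at h0 ⊢
  have hne : ((σ a : Fin (d + 1)) : ℕ) ≠ ((σ b : Fin (d + 1)) : ℕ) := by
    intro h
    exact hab.ne (σ.injective (Fin.ext h))
  have hb1 : ((σ a : Fin (d + 1)) : ℕ) ≤ d := by omega
  have hb2 : ((σ b : Fin (d + 1)) : ℕ) ≤ d := by omega
  generalize ((σ a : Fin (d + 1)) : ℕ) = s at h0 hne hb1 ⊢
  generalize ((σ b : Fin (d + 1)) : ℕ) = t at h0 hne hb2 ⊢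
  rcases Nat.even_or_odd (s + t) with he | ho
  · -- same parity
    have hst := parE s t he
    rcases Nat.lt_or_gt_of_ne hne with h | h
    · -- s < t
      have he' : Even (t + s) := by rwa [add_comm]
      obtain ⟨c, hc, h1⟩ := same t s h hb2 he'
      have h2 := key t s h hb2 he'
      have h3 : ((ε * (-1) ^ t : ℤ) : ℝ) * G (t + s) < 0 := by
        have : ((ε * (-1) ^ t : ℤ) : ℝ) * G (t + s) * c < 0 := by linarith
        exact neg_of_mul_neg_left this hc.le
      have h4 : ((ε * (-1) ^ t : ℤ) : ℝ) * (((t : ℤ) + s - 2 * k - 1 : ℤ) : ℝ) < 0 := by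
        by_contra hcon
        push Not at hcon
        have h5 : 0 ≤ (((ε * (-1) ^ t : ℤ) : ℝ) * (((t : ℤ) + s - 2 * k - 1 : ℤ) : ℝ)) *
            ((((t : ℤ) + s - 2 * k - 1 : ℤ) : ℝ) * G (t + s)) := mul_nonneg hcon h2.le
        have h6 : (0 : ℝ) < (((t : ℤ) + s - 2 * k - 1 : ℤ) : ℝ) ^ 2 := by
          have : (((t : ℤ) + s - 2 * k - 1 : ℤ) : ℝ) ≠ 0 := left_ne_zero_of_mul h2.ne'
          positivity
        nlinarith
      have h5 : ε * (-1) ^ t * ((t : ℤ) + s - 2 * k - 1) < 0 := by exact_mod_cast h4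
      rw [hst]
      have h6 : (0 : ℤ) < (t : ℤ) - s := by omega
      nlinarith
    · obtain ⟨c, hc, h1⟩ := same s t h hb1 he
      have h2 := key s t h hb1 he
      have h3 : 0 < ((ε * (-1) ^ s : ℤ) : ℝ) * G (s + t) := by
        have : 0 < ((ε * (-1) ^ s : ℤ) : ℝ) * G (s + t) * c := by linarith
        exact pos_of_mul_pos_left this hc.le
      have h4 : 0 < ((ε * (-1) ^ s : ℤ) : ℝ) * (((s : ℤ) + t - 2 * k - 1 : ℤ) : ℝ) := by
        by_contra hcon
        push Not at hcon
        have h5 : (((ε * (-1) ^ s : ℤ) : ℝ) * (((s : ℤ) + t - 2 * k - 1 : ℤ) : ℝ)) *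
            ((((s : ℤ) + t - 2 * k - 1 : ℤ) : ℝ) * G (s + t)) ≤ 0 :=
          mul_nonpos_of_nonpos_of_nonneg hcon h2.le
        have h6 : (0 : ℝ) < (((s : ℤ) + t - 2 * k - 1 : ℤ) : ℝ) ^ 2 := by
          have : (((s : ℤ) + t - 2 * k - 1 : ℤ) : ℝ) ≠ 0 := left_ne_zero_of_mul h2.ne'
          positivity
        nlinarith
      have h5 : 0 < ε * (-1) ^ s * ((s : ℤ) + t - 2 * k - 1) := by exact_mod_cast h4
      rw [← hst]
      have h6 : (0 : ℤ) < (s : ℤ) - t := by omega
      nlinarith
  · -- different parity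
    have h1 := diff s t hb1 hb2 ho
    have h2 : 0 < ((ε * (-1) ^ s : ℤ) : ℝ) := pos_of_mul_pos_left h1 (by linarith)
    have h3 : ε * (-1) ^ s = 1 := by
      rcases sgn s with h | h
      · exact h
      · rw [h] at h2
        norm_num at h2
    have h4 := parO s t ho
    rw [h3] at h4 ⊢
    have h5 : ε * (-1) ^ t = -1 := by linarith
    rw [h5]
    have h6 : (0 : ℤ) < (2 * (s : ℤ) - 2 * k - 1) ^ 2 := by
      have : 2 * (s : ℤ) - 2 * k - 1 ≠ 0 := by omega
      positivity
    nlinarith [sq_nonneg (2 * (t : ℤ) - 2 * k - 1)]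

theorem pos3 {x y z : ℝ} (h1 : 0 < x * y) (h2 : 0 < y * z) : 0 < x * z := by
  have h3 : 0 < (x * z) * (y * y) := by nlinarith [mul_pos h1 h2]
  exact pos_of_mul_pos_left h3 (mul_self_nonneg y)

theorem mul_sin_pos {a : ℝ} (h0 : a ≠ 0) (h1 : -Real.pi < a) (h2 : a < Real.pi) :
    0 < a * Real.sin a := by
  rcases lt_or_gt_of_ne h0 with h | h
  · exact mul_pos_of_neg_of_neg h (Real.sin_neg_of_neg_of_neg_pi_lt h h1)
  · exact mul_pos h (Real.sin_pos_of_pos_of_lt_pi h h2)

theorem realRot_of {d : ℕ} {σ : Equiv.Perm (Fin (d + 1))} {θ : ℕ → ℝ}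
    (ε : ℤ) (hε : ε = 1 ∨ ε = -1) (G : ℕ → ℝ) (hG : Monotone G) (hσ : Sorts σ θ)
    (same : ∀ i j : ℕ, j < i → i ≤ d → Even (i + j) →
      0 < ((ε * (-1) ^ i : ℤ) : ℝ) * (θ i - θ j))
    (diff : ∀ i j : ℕ, i ≤ d → j ≤ d → Odd (i + j) →
      ∃ c : ℝ, 0 < c ∧ θ i - θ j = ((ε * (-1) ^ i : ℤ) : ℝ) * (c * G (i + j))) :
    RealRot σ := by
  classical
  have hpi := Real.pi_pos
  set k := Nat.findGreatest (fun k => k = 0 ∨ G (2 * k - 1) < 0) d with hk
  have hkd : k ≤ d := Nat.findGreatest_le _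
  have hk1 : k = 0 ∨ G (2 * k - 1) < 0 :=
    Nat.findGreatest_spec (P := fun k => k = 0 ∨ G (2 * k - 1) < 0) (Nat.zero_le _) (Or.inl rfl)
  have hk2 : ∀ k', k < k' → k' ≤ d → 0 ≤ G (2 * k' - 1) := by
    intro k' h1 h2
    have := Nat.findGreatest_is_greatest h1 h2
    push Not at this
    exact this.2
  have sgn : ∀ s : ℕ, ε * (-1) ^ s = 1 ∨ ε * (-1) ^ s = -1 := by
    intro s
    rcases hε with rfl | rfl <;> rcases neg_one_pow_eq_or ℤ s with h | h <;> simp [h]
  have parE : ∀ i j : ℕ, Even (i + j) → ε * (-1) ^ i = ε * (-1) ^ j := by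
    intro i j h
    congr 1
    rcases Nat.even_add.1 h with ⟨h1, h2⟩
    by_cases hi : Even i
    · rw [hi.neg_one_pow, (h1 hi).neg_one_pow]
    · rw [(Nat.not_even_iff_odd.1 hi).neg_one_pow,
        (Nat.not_even_iff_odd.1 fun hj => hi (h2 hj)).neg_one_pow]
  have parO : ∀ i j : ℕ, Odd (i + j) → ε * (-1) ^ i = -(ε * (-1) ^ j) := by
    intro i j h
    have := parE (i + 1) j (by
      rw [show i + 1 + j = i + j + 1 by ring]
      exact h.add_one)
    rw [pow_succ] at this
    linarith
  have key : ∀ i j : ℕ, i ≤ d → j ≤ d → Odd (i + j) →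
      0 < (((i : ℤ) + j - 2 * k : ℤ) : ℝ) * G (i + j) := by
    intro i j hi hj he
    obtain ⟨r, hr⟩ := he
    have hne : G (i + j) ≠ 0 := by
      intro h0
      obtain ⟨c, hc, h1⟩ := diff i j hi hj ⟨r, hr⟩
      rw [h0, mul_zero, mul_zero] at h1
      have := hσ.inj hi hj (sub_eq_zero.1 h1)
      omega
    rcases Nat.lt_or_ge k (r + 1) with h | h
    · have h1 := hk2 (r + 1) h (by omega)
      have h2 : 0 < G (i + j) := lt_of_le_of_ne (by
        rw [hr, show 2 * r + 1 = 2 * (r + 1) - 1 by omega]; exact h1) hne.symm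
      refine mul_pos ?_ h2
      have : (0 : ℤ) < (i : ℤ) + j - 2 * k := by omega
      exact_mod_cast this
    · have h1 : G (2 * k - 1) < 0 := hk1.resolve_left (by omega)
      have h2 : G (i + j) < 0 := lt_of_le_of_lt (hG (by omega)) h1
      refine mul_pos_of_neg_of_neg ?_ h2
      have : (i : ℤ) + j - 2 * k < 0 := by omega
      exact_mod_cast this
  -- the angles
  set e : ℝ := Real.pi / (4 * d + 4) with he
  have hd0 : (0 : ℝ) ≤ d := Nat.cast_nonneg _
  have he0 : 0 < e := by positivity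
  have hed : e * (4 * d + 4) = Real.pi := by
    rw [he]
    field_simp
  have hkd' : (k : ℝ) ≤ d := by exact_mod_cast hkd
  have hcos : ∀ i : ℕ, Real.cos ((Real.pi + e) * i + (-(e * k) - ε * (Real.pi / 2))) =
      ((ε * (-1) ^ i : ℤ) : ℝ) * Real.sin (e * (i - k)) := by
    intro i
    have e1 : (Real.pi + e) * i + (-(e * k) - ε * (Real.pi / 2)) =
        (e * (i - k) - ε * (Real.pi / 2)) + i * Real.pi := by ring
    rw [e1, Real.cos_add_nat_mul_pi]
    rcases hε with rfl | rfl
    · push_cast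
      rw [one_mul, Real.cos_sub_pi_div_two]
      ring
    · push_cast
      rw [show e * ((i : ℝ) - k) - -1 * (Real.pi / 2) = e * (i - k) + Real.pi / 2 by ring,
        Real.cos_add_pi_div_two]
      ring
  have hmono : ∀ s t : ℕ, s ≤ d → t ≤ d → s < t →
      Real.sin (e * (s - k)) < Real.sin (e * (t - k)) := by
    intro s t hs ht hst
    have b1 : (s : ℝ) ≤ d := by exact_mod_cast hs
    have b2 : (t : ℝ) ≤ d := by exact_mod_cast ht
    have b3 : (0 : ℝ) ≤ s := Nat.cast_nonneg _
    have b4 : (0 : ℝ) ≤ t := Nat.cast_nonneg _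
    have b5 : (0 : ℝ) ≤ k := Nat.cast_nonneg _
    have b6 : (s : ℝ) < t := by exact_mod_cast hst
    refine Real.strictMonoOn_sin ⟨?_, ?_⟩ ⟨?_, ?_⟩ ?_
    all_goals nlinarith
  refine ⟨Real.pi + e, -(e * k) - ε * (Real.pi / 2), fun a b hab => ?_⟩
  have h0 := hσ hab
  simp only at h0 ⊢
  rw [hcos, hcos]
  have hne : ((σ a : Fin (d + 1)) : ℕ) ≠ ((σ b : Fin (d + 1)) : ℕ) := by
    intro h
    exact hab.ne (σ.injective (Fin.ext h))
  have hb1 : ((σ a : Fin (d + 1)) : ℕ) ≤ d := by omega
  have hb2 : ((σ b : Fin (d + 1)) : ℕ) ≤ d := by omega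
  generalize ((σ a : Fin (d + 1)) : ℕ) = s at h0 hne hb1 ⊢
  generalize ((σ b : Fin (d + 1)) : ℕ) = t at h0 hne hb2 ⊢
  rcases Nat.even_or_odd (s + t) with hev | ho
  · have hst := parE s t hev
    rcases Nat.lt_or_gt_of_ne hne with h | h
    · -- s < t
      have h1 := same t s h hb2 (by rwa [add_comm])
      have h2 : ((ε * (-1) ^ t : ℤ) : ℝ) < 0 := by
        by_contra hcon
        push Not at hcon
        nlinarith
      have h3 : ε * (-1) ^ t = -1 := by
        rcases sgn t with h' | h'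
        · rw [h'] at h2
          norm_num at h2
        · exact h'
      rw [hst, h3]
      have := hmono s t hb1 hb2 h
      push_cast
      linarith
    · have h1 := same s t h hb1 hev
      have h2 : 0 < ((ε * (-1) ^ s : ℤ) : ℝ) := pos_of_mul_pos_left h1 (by linarith)
      have h3 : ε * (-1) ^ s = 1 := by
        rcases sgn s with h' | h'
        · exact h'
        · rw [h'] at h2
          norm_num at h2
      rw [← hst, h3]
      have := hmono t s hb2 hb1 h
      push_cast
      linarith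
  · obtain ⟨c, hc, h1⟩ := diff s t hb1 hb2 ho
    have h2 := key s t hb1 hb2 ho
    have h3 : 0 < ((ε * (-1) ^ s : ℤ) : ℝ) * G (s + t) := by
      have : 0 < ((ε * (-1) ^ s : ℤ) : ℝ) * G (s + t) * c := by linarith
      exact pos_of_mul_pos_left this hc.le
    have h4 : 0 < ((ε * (-1) ^ s : ℤ) : ℝ) * (((s : ℤ) + t - 2 * k : ℤ) : ℝ) :=
      pos3 h3 (by rw [mul_comm]; exact h2)
    have hA : (((s : ℤ) + t - 2 * k : ℤ) : ℝ) ≠ 0 := right_ne_zero_of_mul h4.ne'
    have b1 : (s : ℝ) ≤ d := by exact_mod_cast hb1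
    have b2 : (t : ℝ) ≤ d := by exact_mod_cast hb2
    have b3 : (0 : ℝ) ≤ s := Nat.cast_nonneg _
    have b4 : (0 : ℝ) ≤ t := Nat.cast_nonneg _
    have b5 : (0 : ℝ) ≤ k := Nat.cast_nonneg _
    have h5 : 0 < (e * (((s : ℤ) + t - 2 * k : ℤ) : ℝ) / 2) *
        Real.sin (e * (((s : ℤ) + t - 2 * k : ℤ) : ℝ) / 2) := by
      refine mul_sin_pos ?_ ?_ ?_
      · have := mul_ne_zero he0.ne' hA
        positivity
      · push_cast
        nlinarith
      · push_cast
        nlinarith
    have h6 : 0 < (((s : ℤ) + t - 2 * k : ℤ) : ℝ) *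
        Real.sin (e * (((s : ℤ) + t - 2 * k : ℤ) : ℝ) / 2) := by
      have : 0 < (((s : ℤ) + t - 2 * k : ℤ) : ℝ) *
        Real.sin (e * (((s : ℤ) + t - 2 * k : ℤ) : ℝ) / 2) * (e / 2) := by linarith
      exact pos_of_mul_pos_left this (by positivity)
    have h7 := pos3 h4 h6
    have h8 : 0 < Real.cos (e * (s - t) / 2) := by
      refine Real.cos_pos_of_mem_Ioo ⟨?_, ?_⟩
      · nlinarith
      · nlinarith
    have h9 : Real.sin (e * (s - k)) + Real.sin (e * (t - k)) =
        2 * Real.sin (e * (((s : ℤ) + t - 2 * k : ℤ) : ℝ) / 2) * Real.cos (e * (s - t) / 2) := by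
      rw [Real.sin_add_sin]
      push_cast
      congr 2
      · congr 1
        ring
      · ring
    have h10 := parO s t ho
    have h11 : ((ε * (-1) ^ t : ℤ) : ℝ) = -((ε * (-1) ^ s : ℤ) : ℝ) := by
      rw [h10]
      push_cast
      ring
    rw [h11]
    have h12 : 0 < ((ε * (-1) ^ s : ℤ) : ℝ) *
        (Real.sin (e * (s - k)) + Real.sin (e * (t - k))) := by
      rw [h9]
      have := mul_pos h7 h8
      linarith
    linarith

/-- the solution of the recurrence `x (i+2) = b x (i+1) - x i` with `b = r + r⁻¹`, `r > 1` -/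
theorem exp_sol {d : ℕ} {x : ℕ → ℝ} {b : ℝ} (hb : 2 < b)
    (h : ∀ i, i + 2 ≤ d → x (i + 2) = b * x (i + 1) - x i) :
    ∃ r ρ p q : ℝ, 1 < r ∧ 0 < ρ ∧ ρ < 1 ∧ r * ρ = 1 ∧
      ∀ i, i ≤ d → x i = p * r ^ i + q * ρ ^ i := by
  have hD : 0 < b ^ 2 - 4 := by nlinarith
  set s := Real.sqrt (b ^ 2 - 4) with hs
  have hs2 : s ^ 2 = b ^ 2 - 4 := Real.sq_sqrt hD.le
  have hs0 : 0 < s := Real.sqrt_pos.2 hD
  have hsb : s < b := by nlinarith
  refine ⟨(b + s) / 2, (b - s) / 2, (x 1 - x 0 * ((b - s) / 2)) / s,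
    x 0 - (x 1 - x 0 * ((b - s) / 2)) / s, by linarith, by linarith, ?_, by nlinarith, ?_⟩
  · nlinarith
  · set p := (x 1 - x 0 * ((b - s) / 2)) / s with hp
    have hp' : p * s = x 1 - x 0 * ((b - s) / 2) := div_mul_cancel₀ _ hs0.ne'
    intro i
    induction i using Nat.strong_induction_on with
    | _ i ih =>
      intro hi
      rcases i with _ | _ | i
      · simp
      · simp only [zero_add, pow_one]
        linear_combination -hp'
      · rw [show i + 1 + 1 = i + 2 by ring, h i hi, ih i (by omega) (by omega),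
          ih (i + 1) (by omega) (by omega)]
        rw [pow_succ, pow_succ, pow_succ, pow_succ]
        have e1 : ((b + s) / 2) ^ 2 = b * ((b + s) / 2) - 1 := by nlinarith
        have e2 : ((b - s) / 2) ^ 2 = b * ((b - s) / 2) - 1 := by nlinarith
        linear_combination (-p * ((b + s) / 2) ^ i) * e1 - ((x 0 - p) * ((b - s) / 2) ^ i) * e2

theorem tAlt : SALT := by
  intro d β γ θ σ hβ hrec hs
  rcases Nat.lt_or_ge d 2 with hd | hd
  · exact Or.inl (realRot_small (by omega) σ)
  set η := γ / (2 - β) with hη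
  have hηγ : η * (2 - β) = γ := div_mul_cancel₀ _ (by linarith)
  set x : ℕ → ℝ := fun i => (-1) ^ i * (θ i - η) with hx
  have hθ : ∀ i, θ i = η + (-1) ^ i * x i := by
    intro i
    simp only [hx]
    have : ((-1 : ℝ)) ^ i * (-1) ^ i = 1 := by
      rw [← mul_pow]; norm_num
    linear_combination (-(θ i - η)) * this
  have hrx : ∀ i, i + 2 ≤ d → x (i + 2) = (-β) * x (i + 1) - x i := by
    intro i hi
    have h1 := hrec i hi
    simp only [hx, pow_succ]
    linear_combination ((-1) ^ i) * h1 - ((-1) ^ i) * hηγ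
  have hne : ∀ i j, i ≤ d → j ≤ d → i ≠ j → θ i ≠ θ j := fun i j hi hj hij h =>
    hij (hs.inj hi hj h)
  -- differences
  have dE : ∀ i j : ℕ, Even (i + j) → θ i - θ j = (-1) ^ i * (x i - x j) := by
    intro i j h
    have : ((-1 : ℝ)) ^ i = (-1) ^ j := by
      rcases Nat.even_add.1 h with ⟨h1, h2⟩
      by_cases hi : Even i
      · rw [hi.neg_one_pow, (h1 hi).neg_one_pow]
      · rw [(Nat.not_even_iff_odd.1 hi).neg_one_pow,
          (Nat.not_even_iff_odd.1 fun hj => hi (h2 hj)).neg_one_pow]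
    rw [hθ i, hθ j, ← this]
    ring
  have dO : ∀ i j : ℕ, Odd (i + j) → θ i - θ j = (-1) ^ i * (x i + x j) := by
    intro i j h
    have : ((-1 : ℝ)) ^ j = -(-1) ^ i := by
      rcases Nat.even_or_odd i with hi | hi
      · have hj : Odd j := by
          by_contra hj
          rw [Nat.not_odd_iff_even] at hj
          exact (Nat.not_even_iff_odd.2 h) (hi.add hj)
        rw [hi.neg_one_pow, hj.neg_one_pow]
      · have hj : Even j := by
          by_contra hj
          rw [Nat.not_even_iff_odd] at hj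
          exact (Nat.not_even_iff_odd.2 h) (hi.add_odd hj)
        rw [hi.neg_one_pow, hj.neg_one_pow]
        norm_num
    rw [hθ i, hθ j, this]
    ring
  have sq1 : ∀ i : ℕ, ((-1 : ℝ)) ^ i * (-1) ^ i = 1 := fun i => by
    rw [← mul_pow]; norm_num
  rcases hβ.lt_or_eq with hb | hb
  · -- `-β > 2`
    obtain ⟨r, ρ, p, q, hr, hρ0, hρ1, hrρ, hsol⟩ := exp_sol (b := -β) (by linarith) hrx
    have hr0 : 0 < r := by linarith
    have e1 : ∀ i j : ℕ, r ^ i * ρ ^ (i + j) = ρ ^ j := fun i j => by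
      rw [pow_add, ← mul_assoc, ← mul_pow, hrρ, one_pow, one_mul]
    have e2 : ∀ i j : ℕ, r ^ j * ρ ^ (i + j) = ρ ^ i := fun i j => by
      rw [add_comm i j, e1]
    have fS : ∀ i j : ℕ, i ≤ d → j ≤ d → x i - x j = (r ^ i - r ^ j) * (p - q * ρ ^ (i + j)) := by
      intro i j hi hj
      rw [hsol i hi, hsol j hj]
      linear_combination q * e1 i j - q * e2 i j
    have fO : ∀ i j : ℕ, i ≤ d → j ≤ d → x i + x j = (r ^ i + r ^ j) * (p + q * ρ ^ (i + j)) := by
      intro i j hi hj
      rw [hsol i hi, hsol j hj]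
      linear_combination -q * e1 i j - q * e2 i j
    have hrpow : ∀ i j : ℕ, j < i → 0 < r ^ i - r ^ j := fun i j h =>
      sub_pos.2 (pow_lt_pow_right₀ hr h)
    have hρanti : ∀ i j : ℕ, i ≤ j → ρ ^ j ≤ ρ ^ i := fun i j h =>
      pow_le_pow_of_le_one hρ0.le hρ1.le h
    have hρpos : ∀ i : ℕ, 0 < ρ ^ i := fun i => pow_pos hρ0 i
    have hpq : p ≠ 0 ∨ q ≠ 0 := by
      by_contra hcon
      push Not at hcon
      refine hne 0 2 (by omega) hd (by omega) ?_
      rw [hθ 0, hθ 2, hsol 0 (by omega), hsol 2 hd, hcon.1, hcon.2]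
      ring
    -- choose the sign
    have main : ∀ ε : ℤ, (ε = 1 ∨ ε = -1) → 0 ≤ (ε : ℝ) * p → (p = 0 → 0 ≤ (ε : ℝ) * q) →
        RealRot σ ∨ Alternating σ := by
      intro ε hε hp hp0
      have hεε : (ε : ℝ) * ε = 1 := by
        rcases hε with rfl | rfl <;> norm_num
      rcases le_or_gt 0 ((ε : ℝ) * q) with hq | hq
      · right
        have hpos : 0 < (ε : ℝ) * p ∨ 0 < (ε : ℝ) * q := by
          rcases hpq with h | h
          · refine Or.inl (lt_of_le_of_ne hp ?_)
            intro h0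
            rcases mul_eq_zero.1 h0.symm with h1 | h1
            · rw [h1] at hεε; norm_num at hεε
            · exact h h1
          · refine Or.inr (lt_of_le_of_ne hq ?_)
            intro h0
            rcases mul_eq_zero.1 h0.symm with h1 | h1
            · rw [h1] at hεε; norm_num at hεε
            · exact h h1
        refine alternating_of (by omega) ε hε (fun s => ε * (p - q * ρ ^ s)) ?_ hs ?_ ?_
        · intro s t hst
          have := hρanti s t hst
          simp only
          nlinarith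
        · intro i j hij hi he
          refine ⟨r ^ i - r ^ j, hrpow i j hij, ?_⟩
          rw [dE i j he, fS i j hi (by omega)]
          push_cast
          linear_combination (-((-1) ^ i * (r ^ i - r ^ j) * (p - q * ρ ^ (i + j)))) * hεε
        · intro i j hi hj ho
          rw [dO i j ho, fO i j hi hj]
          push_cast
          have h1 : 0 < r ^ i + r ^ j := by positivity
          have h2 : 0 < (ε : ℝ) * (p + q * ρ ^ (i + j)) := by
            have h3 := hρpos (i + j)
            rcases hpos with h4 | h4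
            · nlinarith [mul_nonneg hq h3.le]
            · nlinarith [mul_pos h4 h3]
          have h5 : (ε : ℝ) * (-1) ^ i * ((-1) ^ i * ((r ^ i + r ^ j) * (p + q * ρ ^ (i + j)))) =
              (r ^ i + r ^ j) * (ε * (p + q * ρ ^ (i + j))) := by
            linear_combination (ε * ((r ^ i + r ^ j) * (p + q * ρ ^ (i + j)))) * sq1 i
          rw [h5]
          exact mul_pos h1 h2
      · left
        have hp1 : 0 < (ε : ℝ) * p := by
          refine lt_of_le_of_ne hp fun h0 => ?_
          have hp2 : p = 0 := by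
            rcases mul_eq_zero.1 h0.symm with h1 | h1
            · rw [h1] at hεε; norm_num at hεε
            · exact h1
          linarith [hp0 hp2]
        refine realRot_of ε hε (fun s => ε * (p + q * ρ ^ s)) ?_ hs ?_ ?_
        · intro s t hst
          have := hρanti s t hst
          simp only
          nlinarith
        · intro i j hij hi he
          rw [dE i j he, fS i j hi (by omega)]
          push_cast
          have h1 := hrpow i j hij
          have h2 : 0 < (ε : ℝ) * (p - q * ρ ^ (i + j)) := by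
            have h3 := hρpos (i + j)
            nlinarith [mul_pos (neg_pos.2 hq) h3]
          have h5 : (ε : ℝ) * (-1) ^ i * ((-1) ^ i * ((r ^ i - r ^ j) * (p - q * ρ ^ (i + j)))) =
              (r ^ i - r ^ j) * (ε * (p - q * ρ ^ (i + j))) := by
            linear_combination (ε * ((r ^ i - r ^ j) * (p - q * ρ ^ (i + j)))) * sq1 i
          rw [h5]
          exact mul_pos h1 h2
        · intro i j hi hj ho
          refine ⟨r ^ i + r ^ j, by positivity, ?_⟩
          rw [dO i j ho, fO i j hi hj]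
          push_cast
          linear_combination (-((-1) ^ i * (r ^ i + r ^ j) * (p + q * ρ ^ (i + j)))) * hεε
    rcases lt_trichotomy p 0 with hp | hp | hp
    · exact main (-1) (Or.inr rfl) (by push_cast; linarith) (fun h => by linarith)
    · rcases le_or_gt 0 q with hq | hq
      · exact main 1 (Or.inl rfl) (by push_cast; linarith) (fun _ => by push_cast; linarith)
      · exact main (-1) (Or.inr rfl) (by push_cast; linarith) (fun _ => by push_cast; linarith)
    · exact main 1 (Or.inl rfl) (by push_cast; linarith) (fun h => by linarith)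
  · -- `β = -2`
    left
    set p := x 0 with hp
    set q := x 1 - x 0 with hq
    have hsol : ∀ i, i ≤ d → x i = p + q * i := by
      intro i
      induction i using Nat.strong_induction_on with
      | _ i ih =>
        intro hi
        rcases i with _ | _ | i
        · simp [hp]
        · simp [hp, hq]
        · rw [show i + 1 + 1 = i + 2 by ring, hrx i hi, ih i (by omega) (by omega),
            ih (i + 1) (by omega) (by omega), hb]
          push_cast
          ring
    have hq0 : q ≠ 0 := by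
      intro h
      refine hne 0 2 (by omega) hd (by omega) ?_
      rw [hθ 0, hθ 2, hsol 0 (by omega), hsol 2 hd, h]
      norm_num
    have main : ∀ ε : ℤ, (ε = 1 ∨ ε = -1) → 0 < (ε : ℝ) * q → RealRot σ := by
      intro ε hε hεq
      have hεε : (ε : ℝ) * ε = 1 := by
        rcases hε with rfl | rfl <;> norm_num
      refine realRot_of ε hε (fun s => ε * (2 * p + q * s)) ?_ hs ?_ ?_
      · intro s t hst
        have : (s : ℝ) ≤ t := by exact_mod_cast hst
        simp only
        nlinarith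
      · intro i j hij hi he
        rw [dE i j he, hsol i hi, hsol j (by omega)]
        push_cast
        have h1 : (j : ℝ) < i := by exact_mod_cast hij
        have h5 : (ε : ℝ) * (-1) ^ i * ((-1) ^ i * (p + q * i - (p + q * j))) =
            (ε * q) * (i - j) := by
          linear_combination (ε * (p + q * i - (p + q * j))) * sq1 i
        rw [h5]
        exact mul_pos hεq (by linarith)
      · intro i j hi hj ho
        refine ⟨1, one_pos, ?_⟩
        rw [dO i j ho, hsol i hi, hsol j hj]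
        push_cast
        linear_combination (-((-1) ^ i * (2 * p + q * (i + j)))) * hεε
    rcases lt_or_gt_of_ne hq0 with h | h
    · exact main (-1) (Or.inr rfl) (by push_cast; linarith)
    · exact main 1 (Or.inl rfl) (by push_cast; linarith)

end Q7.LO
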