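import Mathlib
import Pool.Agent.Q7.LO.Stm

set_option autoImplicit false

namespace Q7.LO

theorem sq_lt_imp {k s t : ℕ} (h : (2 * (s : ℤ) - 2 * k - 1) ^ 2 < (2 * (t : ℤ) - 2 * k - 1) ^ 2) :
    Real.cosh ((s : ℝ) - (k + 1 / 2)) < Real.cosh ((t : ℝ) - (k + 1 / 2)) := by
  rw [Real.cosh_lt_cosh, ← sq_lt_sq]
  have h1 : (2 * (s : ℝ) - 2 * k - 1) ^ 2 < (2 * (t : ℝ) - 2 * k - 1) ^ 2 := by exact_mod_cast h
  nlinarith

theorem tAltg : SALTG := by
  intro d σ h
  obtain ⟨k, hk, ε, hε, hs⟩ := h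
  have sgn : ∀ s : ℕ, ε * (-1) ^ s = 1 ∨ ε * (-1) ^ s = -1 := by
    intro s
    rcases hε with rfl | rfl <;> rcases neg_one_pow_eq_or ℤ s with h | h <;> simp [h]
  refine ⟨fun j => ε * (-1 : ℝ) ^ j * Real.cosh (j - (k + 1 / 2)), -2 * Real.cosh 1, 0,
    fun i => ?_, fun i j hij => ?_, fun heq => ?_⟩
  · have h1 : ((-1 : ℝ)) ^ (i - 1) = -(-1) ^ i := by
      rw [zpow_sub_one₀ (by norm_num)]
      norm_num
    have h2 : ((-1 : ℝ)) ^ (i + 1) = -(-1) ^ i := by
      rw [zpow_add_one₀ (by norm_num)]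
      norm_num
    simp only [h1, h2]
    push_cast
    rw [show (i : ℝ) - 1 - (k + 1 / 2) = (i - (k + 1 / 2)) - 1 by ring,
      show (i : ℝ) + 1 - (k + 1 / 2) = (i - (k + 1 / 2)) + 1 by ring, Real.cosh_sub,
      Real.cosh_add]
    ring
  · have h1 := hs hij
    simp only at h1 ⊢
    generalize ((σ i : Fin (d + 1)) : ℕ) = s at h1 ⊢
    generalize ((σ j : Fin (d + 1)) : ℕ) = t at h1 ⊢
    have e : ∀ r : ℕ, (ε : ℝ) * (-1 : ℝ) ^ ((r : ℕ) : ℤ) = ((ε * (-1) ^ r : ℤ) : ℝ) := by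
      intro r
      push_cast
      rw [zpow_natCast]
    rw [e, e]
    have c1 := Real.cosh_pos ((s : ℝ) - (k + 1 / 2))
    have c2 := Real.cosh_pos ((t : ℝ) - (k + 1 / 2))
    rcases sgn s with hs1 | hs1 <;> rcases sgn t with ht1 | ht1
    · rw [hs1, ht1] at h1 ⊢
      have := sq_lt_imp (k := k) (s := t) (t := s) (by linarith)
      push_cast
      linarith
    · rw [hs1, ht1]
      push_cast
      linarith
    · rw [hs1, ht1] at h1
      nlinarith [sq_nonneg (2 * (s : ℤ) - 2 * k - 1), sq_nonneg (2 * (t : ℤ) - 2 * k - 1)]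
    · rw [hs1, ht1] at h1 ⊢
      have := sq_lt_imp (k := k) (s := s) (t := t) (by linarith)
      push_cast
      linarith
  · simp only at heq
    have hε0 : (ε : ℝ) ≠ 0 := by
      rcases hε with rfl | rfl <;> norm_num
    rw [zpow_zero, mul_assoc, mul_assoc, mul_right_inj' hε0] at heq
    push_cast at heq
    rw [one_mul] at heq
    have c1 := Real.cosh_pos ((d : ℝ) + 1 - (k + 1 / 2))
    have c2 := Real.cosh_pos ((0 : ℝ) - (k + 1 / 2))
    have e : (-1 : ℝ) ^ ((d : ℤ) + 1) = (-1 : ℝ) ^ (d + 1) := by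
      rw [← zpow_natCast]
      push_cast
      rfl
    rw [e] at heq
    rcases Nat.even_or_odd (d + 1) with hp | hp
    · rw [hp.neg_one_pow, one_mul] at heq
      have h2 : |(d : ℝ) + 1 - (k + 1 / 2)| = |(0 : ℝ) - (k + 1 / 2)| := by
        refine le_antisymm ?_ ?_
        · rw [← Real.cosh_le_cosh, heq]
        · rw [← Real.cosh_le_cosh, heq]
      rw [abs_eq_abs] at h2
      rcases h2 with h2 | h2
      · have : (d : ℝ) + 1 = 0 := by linarith
        have h0 : (0 : ℝ) ≤ d := by positivity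
        linarith
      · have h3 : (d : ℝ) + 1 = 2 * k + 1 := by linarith
        have h4 : d + 1 = 2 * k + 1 := by exact_mod_cast h3
        rw [h4] at hp
        exact (Nat.not_even_iff_odd.2 ⟨k, rfl⟩) hp
    · rw [hp.neg_one_pow] at heq
      linarith

end Q7.LO
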