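import Mathlib
import Pool.Agent.Q7.LO.Stm

/-!
# Orderings of the eigenvalue sequence of a real Leonard system: assembly
-/

set_option autoImplicit false

universe u

namespace Q7.LO

open Q7.Leonard Module

theorem rotational_of_realRot (h1 : SGEN) (h2 : SFAREY) (h3 : SCELL) (h4 : SDIST) {d : ℕ}
    {σ : Equiv.Perm (Fin (d + 1))} (h : RealRot σ) : Rotational σ := by
  obtain ⟨α, δ, hα, hs⟩ := h1 d (2 * d + 1) σ h
  obtain ⟨m, n, hn1, hn2, hg, hfl⟩ := h2 (2 * d + 1) α (by omega) hα
  obtain ⟨l, hl, hs'⟩ := h3 d n m α δ σ (by omega) hg hα hfl hs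
  obtain ⟨m', l', hm', hmm, hl', hodd, hmono⟩ := h4 d n m l σ (by omega) hl hs'
  refine ⟨n, m', l', by omega, by omega, hm', ?_, hl', hodd, hmono⟩
  have e1 : Int.gcd (m' : ℤ) n = 1 := by
    rw [← hg]
    obtain ⟨k, hk⟩ := (Int.modEq_iff_dvd.1 hmm)
    have hm : m = m' + n * k := by linarith
    rw [hm, Int.gcd_add_mul_left_left]
  rwa [Int.gcd_natCast_natCast] at e1

/-- necessity -/
theorem order_of_leonard (h0 : SREC.{u}) (hT : STRIG) (hH : SHYP) (hA : SALT) (h1 : SGEN)
    (h2 : SFAREY) (h3 : SCELL) (h4 : SDIST) {d : ℕ} {V : Type u} [AddCommGroup V] [Module ℝ V]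
    (hV : finrank ℝ V = d + 1) (σ : Equiv.Perm (Fin (d + 1))) {A As : End ℝ V}
    {θ θs : Fin (d + 1) → ℝ} (h : IsLeonardSystem A As θ θs) (hσ : StrictAnti fun i => θ (σ i)) :
    Rotational σ ∨ Alternating σ := by
  obtain ⟨β, γ, hr⟩ := h0 d V hV A As θ θs h
  set t : ℕ → ℝ := fun j => if h : j < d + 1 then θ ⟨j, h⟩ else 0 with ht
  have e1 : ∀ (j : ℕ) (h : j < d + 1), t j = θ ⟨j, h⟩ := fun j h => dif_pos h
  have hrec : Rec d β γ t := by
    intro i hi
    rw [e1 i (by omega), e1 (i + 1) (by omega), e1 (i + 2) (by omega)]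
    exact hr i hi
  have hs : Sorts σ t := by
    intro i j hij
    change t (σ j : ℕ) < t (σ i : ℕ)
    rw [e1 _ (σ j).2, e1 _ (σ i).2]
    exact hσ hij
  have key : RealRot σ ∨ Alternating σ := by
    rcases le_or_gt β (-2) with hb | hb
    · exact hA d β γ t σ hb hrec hs
    · rcases lt_or_ge β 2 with hb' | hb'
      · exact Or.inl (hT d β γ t σ hb hb' hrec hs)
      · exact Or.inl (hH d β γ t σ hb' hrec hs)
  rcases key with hk | hk
  · exact Or.inl (rotational_of_realRot h1 h2 h3 h4 hk)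
  · exact Or.inr hk

theorem op_aeval {R : Type*} [CommSemiring R] {S : Type*} [Semiring S] [Algebra R S] (x : S)
    (p : Polynomial R) :
    Polynomial.aeval (MulOpposite.op x) p = MulOpposite.op (Polynomial.aeval x p) := by
  induction p using Polynomial.induction_on' with
  | add p q hp hq => rw [map_add, map_add, hp, hq, MulOpposite.op_add]
  | monomial n a =>
    rw [Polynomial.aeval_monomial, Polynomial.aeval_monomial, MulOpposite.op_mul,
      MulOpposite.op_pow, ← MulOpposite.algebraMap_apply, Algebra.commutes]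

theorem map_primIdem' {K : Type*} [Field K] {𝒜 ℬ : Type*} [Ring 𝒜] [Algebra K 𝒜] [Ring ℬ]
    [Algebra K ℬ] {d : ℕ}
    (e : 𝒜 ≃ₐ[K] ℬ) (X : 𝒜) (η : Fin (d + 1) → K) (i : Fin (d + 1)) :
    primIdem (e X) η i = e (primIdem X η i) := by
  unfold primIdem
  rw [Polynomial.aeval_algHom_apply]

/-- sufficiency -/
theorem leonard_of_good (hX : SX) (hI : SID) (hS : SSPLIT.{u}) (hM : SMF.{u}) (hW : SAW.{u})
    (hZ : SZERO.{u}) (hU : SUP.{u}) (hL : SLOW.{u}) (hD : SDUAL.{u}) {d : ℕ} {V : Type u}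
    [AddCommGroup V] [Module ℝ V]
    (hV : finrank ℝ V = d + 1) (σ : Equiv.Perm (Fin (d + 1))) (hg : Good σ) :
    ∃ (A As : End ℝ V) (θ θs : Fin (d + 1) → ℝ),
      IsLeonardSystem A As θ θs ∧ StrictAnti fun i => θ (σ i) := by
  obtain ⟨θ, β, γ, hrec, hs, hne⟩ := hg
  have hinj : ∀ i j : ℕ, i ≤ d → j ≤ d → θ i = θ j → i = j := by
    intro i j hi hj hij
    have := hs.injective (a₁ := σ.symm ⟨i, by omega⟩) (a₂ := σ.symm ⟨j, by omega⟩)
      (by simpa using hij)
    have := σ.symm.injective this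
    exact congrArg Fin.val this
  obtain ⟨x, hx⟩ := hX d θ hinj
  obtain ⟨p0, p1, ω, η, ρ, i1, i2, i3⟩ := hI d θ β γ x hrec
  obtain ⟨w, A, As, hsp⟩ := hS d V hV (fun j => θ j) (phi d θ x) p1
  have hmf := hM d V _ _ w A As hsp hinj
  have hphi : ∀ i : ℕ, 1 ≤ i → i ≤ d → phi d θ x i ≠ 0 := fun i h1 h2 => (hx i h1 h2).1
  have rec2 : ∀ i : ℕ, θ (i : ℕ) - β * θ ((i + 1 : ℕ) : ℤ) + θ ((i + 2 : ℕ) : ℤ) = γ := by
    intro i
    have := hrec (i + 1)
    push_cast
    rw [← this]
    ring_nf
  have aw := hW d V (fun j => θ j) (phi d θ x) w A As β γ ρ ω η hsp rec2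
    (fun i => by
      have := i1 i
      simpa using this)
    (fun i => by
      have := i2 (i + 1)
      push_cast at this ⊢
      rw [show (i : ℤ) + 1 + 1 = i + 2 by ring] at this
      exact this)
    (by
      have := i2 0
      rw [p0] at this
      simpa using this)
    (fun i => by
      have := i3 (i + 1)
      push_cast at this ⊢
      rw [show (i : ℤ) + 1 + 1 = i + 2 by ring, add_sub_cancel_right] at this
      exact this)
    (by
      have h3 := i3 0
      rw [p0] at h3
      have h4 := hrec 0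
      simp only [Nat.cast_zero, zero_add, zero_sub, zero_mul, Nat.cast_one] at h3 h4 ⊢
      have h5 : θ (-1) = γ + β * θ 0 - θ 1 := by linarith
      rw [← h5]
      exact h3)
  have zero := hZ d V hV θ A As β γ ρ ω η hmf.1 hrec i1 hne aw
  have up := hU d V (fun j => θ j) (phi d θ x) w A As hsp hinj hphi zero
  have low := hL d V (fun j => θ j) (phi d θ x) w A As hsp hinj (by
    intro i h1 h2
    have := (hx i h1 h2).2
    unfold ssum at this
    have e : ∀ h ∈ Finset.range i, θ (h : ℤ) - θ ((d - h : ℕ) : ℤ) = θ h - θ (d - h) := by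
      intro h hh
      rw [Finset.mem_range] at hh
      rw [Nat.cast_sub (by omega)]
    rw [Finset.sum_congr rfl e, Nat.cast_sub h1]
    exact this) zero
  obtain ⟨τ, t1, t2⟩ := hD d V (fun j => θ j) (phi d θ x) w A As hsp hphi
  set T : Fin (d + 1) → ℝ := fun i => θ (i : ℕ) with hT
  have dual : ∀ i j : Fin (d + 1),
      τ (primIdem A T j * As * primIdem A T i) =
        MulOpposite.op (primIdem As T i * A * primIdem As T j) := by
    intro i j
    have e : ∀ k, τ (primIdem A T k) = MulOpposite.op (primIdem As T k) := by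
      intro k
      rw [← map_primIdem', t1]
      unfold primIdem
      exact op_aeval _ _
    rw [map_mul, map_mul, e, e, t2, ← MulOpposite.op_mul, ← MulOpposite.op_mul, mul_assoc]
  refine ⟨A, As, T, T, ⟨hmf.1, hmf.2, zero, ?_, ?_, ?_⟩, ?_⟩
  · rintro i j (h | h)
    · exact up i j h
    · exact low i j h
  · intro i j hij
    have := dual i j
    rw [zero j i hij.symm, map_zero] at this
    exact (MulOpposite.op_eq_zero_iff _).1 this.symm
  · intro i j hij h0
    have := dual i j
    rw [h0, MulOpposite.op_zero] at this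
    have h1 := (map_eq_zero_iff τ τ.injective).1 this
    rcases hij with h | h
    · exact low j i h h1
    · exact up j i h h1
  · exact hs

end Q7.LO
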