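import Mathlib
import Pool.Agent.Q7.LO.Stm

set_option autoImplicit false

universe u

namespace Q7.LO

open Q7.Leonard Module

theorem tAw : SAW.{u} := by
  intro d V _ _ θ φ w A As β γ ρ ω η hs h1 h2 h3 h4 h5 h6
  obtain ⟨b, hb⟩ := hs.basis
  refine b.ext fun i => ?_
  rw [hb]
  generalize (i : ℕ) = j
  rcases j with _ | j
  · simp only [LinearMap.sub_apply, LinearMap.add_apply, LinearMap.smul_apply,
      Module.End.mul_apply, Module.End.one_apply, hs.hA, hs.hAs, hs.hAs0, map_add, map_smul,
      zero_add]
    have e1 := h1 0
    have e2 := h2 0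
    simp only [zero_add] at e1 e2
    match_scalars
    · linear_combination h6 + θ 0 * e2
    · linear_combination h4
    · linear_combination e1
  · simp only [LinearMap.sub_apply, LinearMap.add_apply, LinearMap.smul_apply,
      Module.End.mul_apply, Module.End.one_apply, hs.hA, hs.hAs, map_add, map_smul]
    have e1 := h1 j
    have e1' := h1 (j + 1)
    have e2 := h2 j
    have e2' := h2 (j + 1)
    have e3 := h3 j
    have e5 := h5 j
    have a1 : j + 1 + 1 = j + 2 := rfl
    have a2 : j + 2 + 1 = j + 3 := rfl

    simp only [a1, a2] at e1' e2' e3 e5 ⊢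
    match_scalars
    · linear_combination e5 + (φ (j + 1) + φ (j + 2)) * e1 + θ (j + 1) * e2 +
        θ (j + 1) * (θ (j + 1) - θ j) * e1
    · linear_combination e3
    · linear_combination e1'
    · linear_combination φ (j + 1) * e2

end Q7.LO
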