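import Mathlib
import Pool.Agent.Q7.LO.Stm

set_option autoImplicit false

namespace Q7.LO

theorem sin_mul_sin_pos {z : ℤ} {y y' : ℝ} (h1 : (z : ℝ) < y) (h2 : y < z + 1)
    (h1' : (z : ℝ) < y') (h2' : y' < z + 1) :
    0 < Real.sin (Real.pi * y) * Real.sin (Real.pi * y') := by
  have hpi := Real.pi_pos
  have key : ∀ t : ℝ, Real.sin (Real.pi * t) =
      (-1) ^ z * Real.sin (Real.pi * (t - z)) := by
    intro t
    rw [← Real.sin_add_int_mul_pi]
    congr 1
    ring
  have pos : ∀ t : ℝ, (z : ℝ) < t → t < z + 1 → 0 < Real.sin (Real.pi * (t - z)) := by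
    intro t ht1 ht2
    refine Real.sin_pos_of_pos_of_lt_pi (mul_pos hpi (by linarith)) ?_
    nlinarith
  rw [key y, key y']
  have e : ((-1 : ℝ) ^ z) * (-1) ^ z = 1 := by
    rw [← mul_zpow]
    norm_num
  have := mul_pos (pos y h1 h2) (pos y' h1' h2')
  calc (0 : ℝ) < ((-1 : ℝ) ^ z * (-1) ^ z) * (Real.sin (Real.pi * (y - z)) *
      Real.sin (Real.pi * (y' - z))) := by rw [e, one_mul]; exact this
    _ = _ := by ring

theorem tCell : SCELL := by
  intro d n m α δ σ hn hg hα hfl hs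
  have hn0 : (0 : ℝ) < n := by
    have : 0 < n := by omega
    exact_mod_cast this
  have hpi := Real.pi_pos
  set v : ℕ → ℤ := fun s => ⌊α * s + δ⌋ with hv
  have hfl' : ∀ k : ℕ, 1 ≤ k → k ≤ 2 * d + 1 →
      (n : ℤ) * ⌊α * k⌋ < m * k ∧ m * k < n * (⌊α * k⌋ + 1) := by
    intro k h1 h2
    obtain ⟨e1, e2⟩ := hfl k h1 h2
    rw [lt_div_iff₀ hn0] at e1
    rw [div_lt_iff₀ hn0] at e2
    constructor
    · have : (n : ℝ) * ⌊α * k⌋ < m * k := by linarith
      exact_mod_cast this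
    · have : (m : ℝ) * k < n * (⌊α * k⌋ + 1) := by linarith
      exact_mod_cast this
  have claim : ∀ s t : ℕ, s ≤ 2 * d → t ≤ 2 * d →
      (n : ℤ) * v s - m * s < n * v t - m * t + n := by
    intro s t hs1 ht1
    have v1 := Int.floor_le (α * s + δ)
    have v2 := Int.lt_floor_add_one (α * s + δ)
    have v3 := Int.floor_le (α * t + δ)
    have v4 := Int.lt_floor_add_one (α * t + δ)
    have hn0' : (0 : ℤ) < n := by omega
    rcases lt_trichotomy s t with h | h | h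
    · obtain ⟨k, rfl⟩ := Nat.exists_eq_add_of_lt h
      obtain ⟨_, e2⟩ := hfl' (k + 1) (by omega) (by omega)
      have e3 : ⌊α * (k + 1 : ℕ)⌋ < v (s + k + 1) - v s + 1 := by
        rw [Int.floor_lt]
        simp only [hv]
        push_cast at v4 ⊢
        linarith
      have e4 : (n : ℤ) * (⌊α * (k + 1 : ℕ)⌋ + 1) ≤ n * (v (s + k + 1) - v s + 1) :=
        mul_le_mul_of_nonneg_left (by omega) hn0'.le
      push_cast at e2 e4 ⊢
      linarith
    · subst h
      linarith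
    · obtain ⟨k, rfl⟩ := Nat.exists_eq_add_of_lt h
      obtain ⟨e1, _⟩ := hfl' (k + 1) (by omega) (by omega)
      have e3 : v (t + k + 1) - v t - 1 ≤ ⌊α * (k + 1 : ℕ)⌋ := by
        rw [Int.le_floor]
        simp only [hv]
        push_cast at v1 ⊢
        linarith
      have e4 : (n : ℤ) * (v (t + k + 1) - v t - 1) ≤ n * ⌊α * (k + 1 : ℕ)⌋ :=
        mul_le_mul_of_nonneg_left (by omega) hn0'.le
      push_cast at e1 e4 ⊢
      linarith
  obtain ⟨s₀, hs₀, hmax⟩ := Finset.exists_max_image (Finset.range (2 * d + 1))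
    (fun s : ℕ => (n : ℤ) * v s - m * s) ⟨0, by simp⟩
  rw [Finset.mem_range] at hs₀
  set a : ℤ := (n : ℤ) * v s₀ - m * s₀ with ha
  refine ⟨2 * a + 1, ⟨a, rfl⟩, fun i j hij => ?_⟩
  have h0 := hs hij
  simp only at h0 ⊢
  have hne : ((σ i : Fin (d + 1)) : ℕ) ≠ ((σ j : Fin (d + 1)) : ℕ) := by
    intro h
    exact hij.ne (σ.injective (Fin.ext h))
  have hb1 : ((σ i : Fin (d + 1)) : ℕ) ≤ d := by omega
  have hb2 : ((σ j : Fin (d + 1)) : ℕ) ≤ d := by omega
  generalize ((σ i : Fin (d + 1)) : ℕ) = y at h0 hne hb1 ⊢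
  generalize ((σ j : Fin (d + 1)) : ℕ) = x at h0 hne hb2 ⊢
  rw [← sub_neg, Real.cos_sub_cos] at h0 ⊢
  have w1 : (2 * Real.pi * (α * x) + Real.pi * δ + (2 * Real.pi * (α * y) + Real.pi * δ)) / 2 =
      Real.pi * (α * ((x + y : ℕ) : ℝ) + δ) := by
    push_cast; ring
  have w2 : (2 * Real.pi * (α * x) + Real.pi * δ - (2 * Real.pi * (α * y) + Real.pi * δ)) / 2 =
      Real.pi * (α * ((x : ℝ) - y)) := by ring
  have w3 : (Real.pi * (4 * m * x + ((2 * a + 1 : ℤ) : ℝ)) / (2 * n) +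
      Real.pi * (4 * m * y + ((2 * a + 1 : ℤ) : ℝ)) / (2 * n)) / 2 =
      Real.pi * ((m * ((x + y : ℕ) : ℝ) + (a + 1 / 2)) / n) := by
    push_cast; field_simp; ring
  have w4 : (Real.pi * (4 * m * x + ((2 * a + 1 : ℤ) : ℝ)) / (2 * n) -
      Real.pi * (4 * m * y + ((2 * a + 1 : ℤ) : ℝ)) / (2 * n)) / 2 =
      Real.pi * ((m : ℝ) * ((x : ℝ) - y) / n) := by
    push_cast; field_simp; ring
  rw [w1, w2] at h0
  rw [w3, w4]
  set S := Real.sin (Real.pi * (α * ((x + y : ℕ) : ℝ) + δ)) with hS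
  set D := Real.sin (Real.pi * (α * ((x : ℝ) - y))) with hD
  set S' := Real.sin (Real.pi * ((m * ((x + y : ℕ) : ℝ) + (a + 1 / 2)) / n)) with hS'
  set D' := Real.sin (Real.pi * ((m : ℝ) * ((x : ℝ) - y) / n)) with hD'
  have hSD : 0 < S * D := by linarith
  -- signs of the sums
  have hSS : 0 < S * S' := by
    have f1 := Int.floor_le (α * ((x + y : ℕ) : ℝ) + δ)
    have f2 := Int.lt_floor_add_one (α * ((x + y : ℕ) : ℝ) + δ)
    have f3 : (v (x + y) : ℝ) ≠ α * ((x + y : ℕ) : ℝ) + δ := by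
      intro h
      have : S = 0 := by
        rw [hS, ← h, mul_comm]
        exact Real.sin_int_mul_pi _
      rw [this, zero_mul] at hSD
      exact lt_irrefl _ hSD
    have g1 := hmax (x + y) (Finset.mem_range.2 (by omega))
    have g2 := claim s₀ (x + y) (by omega) (by omega)
    rw [← ha] at g2
    have g1' : (n : ℝ) * v (x + y) - m * ((x + y : ℕ) : ℝ) ≤ a := by exact_mod_cast g1
    have g2' : (a : ℝ) + 1 ≤ n * v (x + y) - m * ((x + y : ℕ) : ℝ) + n := by
      exact_mod_cast g2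
    refine sin_mul_sin_pos (z := v (x + y)) (lt_of_le_of_ne f1 f3) f2 ?_ ?_
    · rw [lt_div_iff₀ hn0]
      linarith
    · rw [div_lt_iff₀ hn0]
      linarith
  have hDD : 0 < D * D' := by
    rcases Nat.lt_or_gt_of_ne hne with h | h
    · -- y < x
      obtain ⟨k, rfl⟩ := Nat.exists_eq_add_of_lt h
      have q1 := Int.floor_le (α * ((k + 1 : ℕ) : ℝ))
      have q2 := Int.lt_floor_add_one (α * ((k + 1 : ℕ) : ℝ))
      have q3 := hα (k + 1) (by omega) (by omega) ⌊α * ((k + 1 : ℕ) : ℝ)⌋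
      have q4 := hfl (k + 1) (by omega) (by omega)
      have := sin_mul_sin_pos (lt_of_le_of_ne q1 q3.symm) q2 q4.1 q4.2
      rw [hD, hD']
      push_cast at this ⊢
      rw [show (y : ℝ) + k + 1 - y = k + 1 by ring]
      exact this
    · obtain ⟨k, rfl⟩ := Nat.exists_eq_add_of_lt h
      have q1 := Int.floor_le (α * ((k + 1 : ℕ) : ℝ))
      have q2 := Int.lt_floor_add_one (α * ((k + 1 : ℕ) : ℝ))
      have q3 := hα (k + 1) (by omega) (by omega) ⌊α * ((k + 1 : ℕ) : ℝ)⌋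
      have q4 := hfl (k + 1) (by omega) (by omega)
      have := sin_mul_sin_pos (lt_of_le_of_ne q1 q3.symm) q2 q4.1 q4.2
      rw [hD, hD']
      push_cast at this ⊢
      rw [show (x : ℝ) - (x + k + 1) = -(k + 1) by ring,
        show Real.pi * (α * -((k : ℝ) + 1)) = -(Real.pi * (α * (k + 1))) by ring,
        show Real.pi * ((m : ℝ) * -((k : ℝ) + 1) / n) = -(Real.pi * (m * (k + 1) / n)) by ring,
        Real.sin_neg, Real.sin_neg, neg_mul_neg]
      exact this
  have hfin : 0 < S' * D' := by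
    have h1 : 0 < (S * S') * (D * D') := mul_pos hSS hDD
    have h2 : (S * S') * (D * D') = (S * D) * (S' * D') := by ring
    rw [h2] at h1
    exact (pos_iff_pos_of_mul_pos h1).1 hSD
  linarith

end Q7.LO
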