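import Mathlib
import Pool.Agent.Q7.LO.Stm

set_option autoImplicit false

namespace Q7.LO

theorem cos_congr {n : ℕ} (hn : 0 < n) {x y : ℤ} (h : x ≡ y [ZMOD (4 * n : ℕ)]) :
    Real.cos (Real.pi * x / (2 * n)) = Real.cos (Real.pi * y / (2 * n)) := by
  obtain ⟨k, hk⟩ := (Int.modEq_iff_dvd.1 h)
  have hn' : (0 : ℝ) < n := by exact_mod_cast hn
  have e : (y : ℝ) = x + 4 * n * k := by
    have : y = x + 4 * n * k := by push_cast at hk; linarith
    rw [this]
    push_cast
    ring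
  have e2 : Real.pi * y / (2 * n) = Real.pi * x / (2 * n) + k * (2 * Real.pi) := by
    rw [e]
    field_simp
    ring
  rw [e2, Real.cos_add_int_mul_two_pi]

theorem circDist_le {n x : ℕ} (hn : 0 < n) : circDist n x ≤ 2 * n := by
  unfold circDist
  omega

theorem cos_circDist {n : ℕ} (hn : 0 < n) (x : ℕ) :
    Real.cos (Real.pi * (x : ℝ) / (2 * n)) =
      Real.cos (Real.pi * (circDist n x : ℝ) / (2 * n)) := by
  have hn' : (0 : ℝ) < n := by exact_mod_cast hn
  have h1 : Real.cos (Real.pi * (x : ℝ) / (2 * n)) =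
      Real.cos (Real.pi * ((x % (4 * n) : ℕ) : ℝ) / (2 * n)) := by
    have := cos_congr hn (x := (x : ℤ)) (y := ((x % (4 * n) : ℕ) : ℤ)) (by
      rw [Int.natCast_mod]
      exact (Int.mod_modEq _ _).symm)
    exact_mod_cast this
  rw [h1]
  unfold circDist
  rcases min_choice (x % (4 * n)) (4 * n - x % (4 * n)) with h | h
  · rw [h]
  · rw [h]
    have hlt : x % (4 * n) < 4 * n := Nat.mod_lt _ (by omega)
    rw [Nat.cast_sub hlt.le]
    have e : Real.pi * (((4 * n : ℕ) : ℝ) - ((x % (4 * n) : ℕ) : ℝ)) / (2 * n) =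
        2 * Real.pi - Real.pi * ((x % (4 * n) : ℕ) : ℝ) / (2 * n) := by
      push_cast
      field_simp
      ring
    rw [e, Real.cos_two_pi_sub]

theorem cos_lt_iff {n a b : ℕ} (hn : 0 < n) (ha : a ≤ 2 * n) (hb : b ≤ 2 * n) :
    Real.cos (Real.pi * (a : ℝ) / (2 * n)) < Real.cos (Real.pi * (b : ℝ) / (2 * n)) ↔
      b < a := by
  have hn' : (0 : ℝ) < n := by exact_mod_cast hn
  have hpi := Real.pi_pos
  have key : ∀ c : ℕ, c ≤ 2 * n → Real.pi * (c : ℝ) / (2 * n) ∈ Set.Icc 0 Real.pi := by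
    intro c hc
    refine ⟨by positivity, ?_⟩
    rw [div_le_iff₀ (by positivity)]
    have : (c : ℝ) ≤ 2 * n := by exact_mod_cast hc
    nlinarith
  rw [Real.strictAntiOn_cos.lt_iff_gt (key a ha) (key b hb)]
  rw [div_lt_div_iff_of_pos_right (by positivity), mul_lt_mul_iff_right₀ hpi]
  exact_mod_cast Iff.rfl

theorem cos_order_iff {n : ℕ} (hn : 0 < n) (x y : ℕ) :
    Real.cos (Real.pi * (x : ℝ) / (2 * n)) < Real.cos (Real.pi * (y : ℝ) / (2 * n)) ↔
      circDist n y < circDist n x := by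
  rw [cos_circDist hn x, cos_circDist hn y]
  exact cos_lt_iff hn (circDist_le hn) (circDist_le hn)

theorem tDist : SDIST := by
  intro d n m l σ hn hl hs
  have hn' : (0 : ℤ) < n := by exact_mod_cast hn
  have hm0 := Int.emod_nonneg m hn'.ne'
  have hm1 := Int.emod_lt_of_pos m hn'
  have h4 : (0 : ℤ) < 4 * n := by omega
  have hl0 := Int.emod_nonneg l h4.ne'
  have hl1 := Int.emod_lt_of_pos l h4
  obtain ⟨m', hm'⟩ := Int.eq_ofNat_of_zero_le hm0
  obtain ⟨l', hl'⟩ := Int.eq_ofNat_of_zero_le hl0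
  refine ⟨m', l', by omega, ?_, by omega, ?_, ?_⟩
  · rw [← hm']
    exact Int.mod_modEq _ _
  · have h1 : (l' : ℤ) = l - 4 * n * (l / (4 * n)) := by
      rw [← hl', Int.emod_def]
    obtain ⟨c, hc⟩ := hl
    have h2 : Odd (l' : ℤ) := by
      refine ⟨c - 2 * n * (l / (4 * n)), ?_⟩
      rw [h1, hc]
      ring
    exact_mod_cast h2
  · intro i j hij
    have h1 := hs hij
    simp only at h1 ⊢
    have e : ∀ s : ℕ, Real.cos (Real.pi * (4 * m * s + l) / (2 * n)) =
        Real.cos (Real.pi * ((4 * m' * s + l' : ℕ) : ℝ) / (2 * n)) := by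
      intro s
      have := cos_congr hn (x := 4 * m * s + l) (y := ((4 * m' * s + l' : ℕ) : ℤ)) (by
        push_cast
        rw [Int.modEq_iff_dvd, ← hm', ← hl', Int.emod_def, Int.emod_def]
        exact ⟨-(m / n) * s - l / (4 * n), by ring⟩)
      push_cast at this ⊢
      exact this
    rw [e, e, cos_order_iff hn] at h1
    exact h1

end Q7.LO
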