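import Mathlib
import Pool.Agent.Q7.LO.Stm

set_option autoImplicit false

universe u

namespace Q7.LO

open Q7.Leonard Module

variable {V : Type u} [AddCommGroup V] [Module ℝ V] {d : ℕ}

/-- coordinates of the vectors `w j` -/
theorem repr_w {θ φ : ℕ → ℝ} {w : ℕ → V} {A As : End ℝ V} (hs : Split d θ φ w A As)
    {b : Basis (Fin (d + 1)) ℝ V} (hb : ∀ i : Fin (d + 1), b i = w i) (j : ℕ)
    (i : Fin (d + 1)) : b.repr (w j) i = if (i : ℕ) = j then 1 else 0 := by
  by_cases hj : j < d + 1
  · have := hb ⟨j, hj⟩
    simp only at this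
    rw [← this, b.repr_self, Finsupp.single_apply]
    simp only [Fin.ext_iff, eq_comm]
  · rw [hs.zero j (by omega), map_zero, Finsupp.zero_apply, if_neg]
    omega

theorem mem_spectrum_of_triangular {X : End ℝ V} {b : Basis (Fin (d + 1)) ℝ V}
    {t : Fin (d + 1) → ℝ} (hd : ∀ i, b.repr (X (b i)) i = t i)
    (h : (∀ i j : Fin (d + 1), i < j → b.repr (X (b j)) i = 0) ∨
      (∀ i j : Fin (d + 1), j < i → b.repr (X (b j)) i = 0)) (k : Fin (d + 1)) :
    t k ∈ spectrum ℝ X := by
  rw [spectrum.mem_iff]
  intro hu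
  have h1 := hu.map LinearMap.det
  rw [← LinearMap.det_toMatrix b] at h1
  set M := LinearMap.toMatrix b b ((algebraMap ℝ (End ℝ V)) (t k) - X) with hM
  have hMe : ∀ i j, M i j = (if i = j then t k else 0) - b.repr (X (b j)) i := by
    intro i j
    rw [hM, LinearMap.toMatrix_apply, LinearMap.sub_apply, Module.algebraMap_end_apply,
      map_sub, map_smul, b.repr_self, Finsupp.sub_apply, Finsupp.smul_apply,
      Finsupp.single_apply]
    by_cases hij : i = j
    · subst hij; simp
    · rw [if_neg hij, if_neg (Ne.symm hij)]; simp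
  have hdet : M.det = ∏ i, M i i := by
    rcases h with h | h
    · refine Matrix.det_of_lowerTriangular M fun i j hij => ?_
      have hij' : i < j := hij
      rw [hMe, if_neg hij'.ne, h i j hij', sub_zero]
    · refine Matrix.det_of_upperTriangular fun i j hij => ?_
      have hij' : j < i := hij
      rw [hMe, if_neg hij'.ne', h i j hij', sub_zero]
  rw [hdet, Finset.prod_eq_zero (Finset.mem_univ k)] at h1
  · simp at h1
  · rw [hMe, if_pos rfl, hd, sub_self]

theorem tMf : SMF.{u} := by
  intro d V _ _ θ φ w A As hs hinj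
  obtain ⟨b, hb⟩ := hs.basis
  have hi : Function.Injective fun i : Fin (d + 1) => θ i := fun i j hij =>
    Fin.ext (hinj i j (by omega) (by omega) hij)
  have e1 : ∀ i j : Fin (d + 1), b.repr (A (b j)) i =
      (if (i : ℕ) = j then θ j else 0) + if (i : ℕ) = j + 1 then 1 else 0 := by
    intro i j
    rw [hb, hs.hA, map_add, map_smul, Finsupp.add_apply, Finsupp.smul_apply, repr_w hs hb,
      repr_w hs hb]
    split_ifs <;> simp
  have e2 : ∀ i j : Fin (d + 1), b.repr (As (b j)) i =
      (if (i : ℕ) = j then θ j else 0) + if (i : ℕ) + 1 = j then φ j else 0 := by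
    intro i j
    rw [hb]
    obtain ⟨j, hj⟩ := j
    rcases j with _ | j
    · simp only [hs.hAs0, map_smul, Finsupp.smul_apply, repr_w hs hb]
      simp
    · simp only [hs.hAs, map_add, map_smul, Finsupp.add_apply, Finsupp.smul_apply,
        repr_w hs hb]
      simp
  refine ⟨⟨hi, fun k => ?_⟩, ⟨hi, fun k => ?_⟩⟩
  · refine mem_spectrum_of_triangular (b := b) (t := fun i : Fin (d + 1) => θ i)
      (fun i => ?_) (Or.inl fun i j hij => ?_) k
    · rw [e1]; simp
    · rw [e1, if_neg, if_neg]
      · simp
      · have : (i : ℕ) < j := hij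
        omega
      · have : (i : ℕ) < j := hij
        omega
  · refine mem_spectrum_of_triangular (b := b) (t := fun i : Fin (d + 1) => θ i)
      (fun i => ?_) (Or.inr fun i j hij => ?_) k
    · rw [e2]; simp
    · rw [e2, if_neg, if_neg]
      · simp
      · have : (j : ℕ) < i := hij
        omega
      · have : (j : ℕ) < i := hij
        omega

end Q7.LO
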