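import Mathlib
import Pool.Agent.Q7.LO.Stm
import Pool.Agent.Q7.LO.Mf

set_option autoImplicit false

universe u

namespace Q7.LO

open Q7.Leonard Module

/-- conjugation by a diagonal matrix -/
noncomputable def conjDiag {n : ℕ} (p : Fin n → ℝ) (hp : ∀ i, p i ≠ 0) :
    Matrix (Fin n) (Fin n) ℝ ≃ₐ[ℝ] Matrix (Fin n) (Fin n) ℝ where
  toFun X := Matrix.diagonal (fun i => (p i)⁻¹) * X * Matrix.diagonal p
  invFun X := Matrix.diagonal p * X * Matrix.diagonal (fun i => (p i)⁻¹)
  left_inv X := by
    ext i j
    simp only [Matrix.mul_diagonal, Matrix.diagonal_mul]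
    field_simp [hp i, hp j]
  right_inv X := by
    ext i j
    simp only [Matrix.mul_diagonal, Matrix.diagonal_mul]
    field_simp [hp i, hp j]
  map_mul' X Y := by
    have h : Matrix.diagonal p * Matrix.diagonal (fun i => (p i)⁻¹) = 1 := by
      rw [Matrix.diagonal_mul_diagonal, ← Matrix.diagonal_one]
      congr 1
      funext i
      exact mul_inv_cancel₀ (hp i)
    rw [show Matrix.diagonal (fun i => (p i)⁻¹) * X * Matrix.diagonal p *
        (Matrix.diagonal (fun i => (p i)⁻¹) * Y * Matrix.diagonal p) =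
        Matrix.diagonal (fun i => (p i)⁻¹) * X *
        (Matrix.diagonal p * Matrix.diagonal (fun i => (p i)⁻¹)) * Y * Matrix.diagonal p by
      simp only [mul_assoc], h, mul_one]
    simp only [mul_assoc]
  map_add' X Y := by
    ext i j
    simp only [Matrix.mul_diagonal, Matrix.diagonal_mul, Matrix.add_apply]
    ring
  commutes' r := by
    ext i j
    rw [Matrix.algebraMap_matrix_apply]
    simp only [Matrix.mul_diagonal, Matrix.diagonal_mul, Matrix.algebraMap_matrix_apply]
    by_cases h : i = j
    · subst h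
      simp only [if_true]
      field_simp [hp i]
    · simp [h]

theorem tDual : SDUAL.{u} := by
  intro d V _ _ θ φ w A As hs hφ
  obtain ⟨b, hb⟩ := hs.basis
  let p : Fin (d + 1) → ℝ := fun i => ∏ s ∈ Finset.range i, φ (s + 1)
  have hp : ∀ i, p i ≠ 0 := fun i => Finset.prod_ne_zero_iff.2 fun s hs' => by
    rw [Finset.mem_range] at hs'
    exact hφ (s + 1) (by omega) (by omega)
  let e1 := LinearMap.toMatrixAlgEquiv b
  let τ : End ℝ V ≃ₐ[ℝ] (End ℝ V)ᵐᵒᵖ :=
    e1.trans ((Matrix.transposeAlgEquiv (Fin (d + 1)) ℝ ℝ).trans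
      (AlgEquiv.op ((conjDiag p hp).trans e1.symm)))
  have eA : ∀ i j : Fin (d + 1), e1 A i j =
      (if (i : ℕ) = j then θ j else 0) + if (i : ℕ) = j + 1 then 1 else 0 := by
    intro i j
    simp only [e1]
    rw [LinearMap.toMatrixAlgEquiv_apply, hb, hs.hA, map_add, map_smul, Finsupp.add_apply,
      Finsupp.smul_apply, repr_w hs hb, repr_w hs hb]
    split_ifs <;> simp
  have eAs : ∀ i j : Fin (d + 1), e1 As i j =
      (if (i : ℕ) = j then θ j else 0) + if (i : ℕ) + 1 = j then φ j else 0 := by
    intro i j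
    simp only [e1]
    rw [LinearMap.toMatrixAlgEquiv_apply, hb]
    obtain ⟨j, hj⟩ := j
    rcases j with _ | j
    · simp only [hs.hAs0, map_smul, Finsupp.smul_apply, repr_w hs hb]
      simp
    · simp only [hs.hAs, map_add, map_smul, Finsupp.add_apply, Finsupp.smul_apply,
        repr_w hs hb]
      simp
  have hτ : ∀ X Y : End ℝ V, (∀ i j, e1 X j i * p j = p i * e1 Y i j) →
      τ X = MulOpposite.op Y := by
    intro X Y h
    have h1 : conjDiag p hp (e1 X).transpose = e1 Y := by
      ext i j
      change (Matrix.diagonal (fun i => (p i)⁻¹) * (e1 X).transpose * Matrix.diagonal p) i j = _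
      rw [Matrix.mul_diagonal, Matrix.diagonal_mul, Matrix.transpose_apply, mul_assoc, h i j,
        ← mul_assoc, inv_mul_cancel₀ (hp i), one_mul]
    change MulOpposite.op (e1.symm (conjDiag p hp (e1 X).transpose)) = MulOpposite.op Y
    rw [h1, AlgEquiv.symm_apply_apply]
  refine ⟨τ, hτ A As fun i j => ?_, hτ As A fun i j => ?_⟩
  · rw [eA, eAs]
    by_cases h1 : (j : ℕ) = i
    · have : j = i := Fin.ext h1
      subst this
      simp [mul_comm]
    · by_cases h2 : (j : ℕ) = i + 1
      · rw [if_neg h1, if_pos h2, if_neg (Ne.symm h1), if_pos h2.symm]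
        simp only [p, h2, Finset.prod_range_succ]
        ring
      · rw [if_neg h1, if_neg h2, if_neg (Ne.symm h1), if_neg (Ne.symm h2)]
        simp
  · rw [eA, eAs]
    by_cases h1 : (j : ℕ) = i
    · have : j = i := Fin.ext h1
      subst this
      simp [mul_comm]
    · by_cases h2 : (j : ℕ) + 1 = i
      · rw [if_neg h1, if_pos h2, if_neg (Ne.symm h1), if_pos h2.symm]
        simp only [p, ← h2, Finset.prod_range_succ]
        ring
      · rw [if_neg h1, if_neg h2, if_neg (Ne.symm h1), if_neg (Ne.symm h2)]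
        simp

end Q7.LO
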