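import Mathlib
import Pool.Agent.Q7.LO.Stm

set_option autoImplicit false

namespace Q7.LO

theorem tFarey : SFAREY := by
  intro N α hN hα
  have hne : (Finset.Icc 1 N).Nonempty := ⟨1, by simp [hN]⟩
  obtain ⟨q, hq, hqm⟩ := Finset.exists_max_image (Finset.Icc 1 N)
    (fun k : ℕ => (⌊α * k⌋ : ℝ) / k) hne
  obtain ⟨q', hq', hqm'⟩ := Finset.exists_min_image (Finset.Icc 1 N)
    (fun k : ℕ => ((⌊α * k⌋ : ℝ) + 1) / k) hne
  rw [Finset.mem_Icc] at hq hq'
  have hq0 : (0 : ℝ) < q := by exact_mod_cast hq.1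
  have hq0' : (0 : ℝ) < q' := by exact_mod_cast hq'.1
  set p : ℤ := ⌊α * q⌋ with hp
  set p' : ℤ := ⌊α * q'⌋ + 1 with hp'
  have h1 : (p : ℝ) < α * q := lt_of_le_of_ne (Int.floor_le _) fun h =>
    hα q hq.1 hq.2 p h.symm
  have h2 : α * q' < (p' : ℝ) := by
    rw [hp']
    push_cast
    exact Int.lt_floor_add_one _
  -- the mediant
  set r : ℚ := ((p + p' : ℤ) : ℚ) / ((q + q' : ℕ) : ℚ) with hr
  have hrr : (r : ℝ) = ((p : ℝ) + p') / (q + q') := by
    rw [hr]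
    push_cast
    ring
  have h3 : (p : ℝ) / q < r := by
    rw [hrr, div_lt_div_iff₀ hq0 (by positivity)]
    nlinarith
  have h4 : (r : ℝ) < (p' : ℝ) / q' := by
    rw [hrr, div_lt_div_iff₀ (by positivity) hq0']
    nlinarith
  have key : ∀ k : ℕ, 1 ≤ k → k ≤ N →
      (⌊α * k⌋ : ℝ) < (r : ℝ) * k ∧ (r : ℝ) * k < ⌊α * k⌋ + 1 := by
    intro k hk1 hk2
    have hk0 : (0 : ℝ) < k := by exact_mod_cast hk1
    have e1 := hqm k (Finset.mem_Icc.2 ⟨hk1, hk2⟩)
    have e2 := hqm' k (Finset.mem_Icc.2 ⟨hk1, hk2⟩)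
    have e2' : (p' : ℝ) / q' ≤ ((⌊α * k⌋ : ℝ) + 1) / k := by
      rw [hp']
      push_cast
      exact e2
    constructor
    · rw [← div_lt_iff₀ hk0]
      exact lt_of_le_of_lt e1 h3
    · rw [← lt_div_iff₀ hk0]
      exact lt_of_lt_of_le h4 e2'
  have hrn : (r : ℝ) = (r.num : ℝ) / (r.den : ℝ) := by
    exact_mod_cast (Rat.num_div_den r).symm
  have hd0 : (0 : ℝ) < r.den := by exact_mod_cast r.den_pos
  refine ⟨r.num, r.den, ?_, ?_, ?_, ?_⟩
  · by_contra hcon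
    push Not at hcon
    have e := key r.den r.den_pos hcon
    rw [hrn, div_mul_cancel₀ _ hd0.ne'] at e
    have e1 : ⌊α * (r.den : ℝ)⌋ < r.num := by exact_mod_cast e.1
    have e2 : r.num < ⌊α * (r.den : ℝ)⌋ + 1 := by exact_mod_cast e.2
    omega
  · have hdvd : (r.den : ℤ) ∣ ((q + q' : ℕ) : ℤ) := by
      rw [hr]
      have := Rat.den_dvd (p + p') ((q + q' : ℕ) : ℤ)
      rw [Rat.divInt_eq_div] at this
      exact_mod_cast this
    have := Nat.le_of_dvd (by omega) (Int.natCast_dvd_natCast.1 hdvd)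
    omega
  · have := r.reduced
    rw [Nat.Coprime] at this
    rw [Int.gcd, Int.natAbs_natCast]
    exact this
  · intro k hk1 hk2
    have e := key k hk1 hk2
    rw [hrn] at e
    rw [mul_div_right_comm]
    exact e

end Q7.LO
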