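import Mathlib
import Pool.Agent.Q7.LO.Stm

set_option autoImplicit false

namespace Q7.LO

theorem tGen : SGEN := by
  intro d N σ h
  obtain ⟨ω, φ, hs⟩ := h
  have hpi := Real.pi_pos
  -- the open set of good parameters
  let U : Set ℝ := ⋂ p : {p : Fin (d + 1) × Fin (d + 1) // p.1 < p.2},
    {a : ℝ | Real.cos (2 * Real.pi * (a * (σ p.1.2 : ℕ)) + φ) <
      Real.cos (2 * Real.pi * (a * (σ p.1.1 : ℕ)) + φ)}
  have hU : IsOpen U := by
    refine isOpen_iInter_of_finite fun p => ?_
    exact isOpen_lt (by fun_prop) (by fun_prop)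
  have hmem : ω / (2 * Real.pi) ∈ U := by
    simp only [U, Set.mem_iInter]
    intro p
    have := hs p.2
    simp only at this
    have e : ∀ j : ℕ, 2 * Real.pi * (ω / (2 * Real.pi) * j) = ω * j := by
      intro j
      field_simp
    rw [Set.mem_ofPred_eq, e, e]
    exact this
  let B : Set ℝ := ⋃ k : ℕ, ⋃ z : ℤ, {(z : ℝ) / k}
  have hB : B.Countable := Set.countable_iUnion fun k => Set.countable_iUnion fun z =>
    Set.countable_singleton _
  obtain ⟨a, haU, haB⟩ : ∃ a ∈ U, a ∉ B := by
    by_contra hcon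
    push Not at hcon
    have h1 : U ⊆ B := hcon
    have h2 : U.Countable := hB.mono h1
    have h3 : (interior U).Nonempty := ⟨_, by rw [hU.interior_eq]; exact hmem⟩
    obtain ⟨x, hx⟩ := h3
    rw [hU.interior_eq] at hx
    obtain ⟨ε, hε, hball⟩ := Metric.isOpen_iff.1 hU x hx
    have h4 : (Metric.ball x ε).Countable := h2.mono hball
    rw [Real.ball_eq_Ioo] at h4
    have h5 := (Cardinal.le_aleph0_iff_set_countable.2 h4)
    rw [Cardinal.mk_Ioo_real (by linarith)] at h5
    exact absurd h5 (not_le.2 Cardinal.aleph0_lt_continuum)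
  refine ⟨a, φ / Real.pi, fun k hk _ z hz => haB ?_, fun i j hij => ?_⟩
  · simp only [B, Set.mem_iUnion, Set.mem_singleton_iff]
    refine ⟨k, z, ?_⟩
    have : (0 : ℝ) < k := by exact_mod_cast hk
    field_simp
    linarith
  · simp only [U, Set.mem_iInter] at haU
    have := haU ⟨(i, j), hij⟩
    rw [Set.mem_ofPred_eq] at this
    rw [mul_div_cancel₀ _ hpi.ne']
    exact this

end Q7.LO
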