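import Mathlib
import Pool.Agent.Q7.LO.Stm

set_option autoImplicit false

namespace Q7.LO

theorem ssum_zero (d : ℕ) (θ : ℤ → ℝ) : ssum d θ 0 = 0 := by simp [ssum]

theorem ssum_succ (d : ℕ) (θ : ℤ → ℝ) (i : ℕ) :
    ssum d θ (i + 1) = ssum d θ i + (θ i - θ (d - i)) := by
  unfold ssum
  rw [Finset.sum_range_succ]

theorem ssum_last (d : ℕ) (θ : ℤ → ℝ) : ssum d θ (d + 1) = 0 := by
  unfold ssum
  rw [Finset.sum_sub_distrib, sub_eq_zero]
  have := Finset.sum_range_reflect (fun h : ℕ => θ h) (d + 1)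
  rw [← this]
  refine Finset.sum_congr rfl fun h hh => ?_
  rw [Finset.mem_range] at hh
  congr 1
  omega

theorem tId : SID := by
  intro d θ β γ x hrec
  -- the recurrence in convenient forms
  have r1 : ∀ i : ℤ, θ (i + 1) = γ + β * θ i - θ (i - 1) := fun i => by
    have := hrec i; linarith
  have hρ : ∀ i : ℤ, θ i ^ 2 - β * θ i * θ (i + 1) + θ (i + 1) ^ 2 - γ * (θ i + θ (i + 1)) =
      θ 0 ^ 2 - β * θ 0 * θ 1 + θ 1 ^ 2 - γ * (θ 0 + θ 1) := by
    have step : ∀ i : ℤ, θ (i + 1) ^ 2 - β * θ (i + 1) * θ (i + 1 + 1) + θ (i + 1 + 1) ^ 2 -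
        γ * (θ (i + 1) + θ (i + 1 + 1)) =
        θ i ^ 2 - β * θ i * θ (i + 1) + θ (i + 1) ^ 2 - γ * (θ i + θ (i + 1)) := by
      intro i
      have h := hrec (i + 1)
      rw [add_sub_cancel_right] at h
      linear_combination (θ (i + 1 + 1) - θ i) * h
    intro i
    induction i using Int.induction_on with
    | zero => norm_num
    | succ i ih => rw [step, ih]
    | pred i ih =>
      have := step (-(i : ℤ) - 1)
      rw [sub_add_cancel] at this
      rw [sub_add_cancel, ← this, ih]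
  have p0 : phi d θ x 0 = 0 := by simp [phi, ssum_zero]
  have p1 : phi d θ x (d + 1) = 0 := by
    unfold phi
    rw [ssum_last]
    push_cast
    rw [add_sub_cancel_right]
    ring
  -- second identity
  let E : ℕ → ℝ := fun i => θ i * (θ i + θ (i + 1)) + phi d θ x i -
        β * (θ i ^ 2 + phi d θ x (i + 1) + θ (i + 1) ^ 2) + (θ i + θ (i + 1)) * θ (i + 1) +
        phi d θ x (i + 2) - γ * (θ i + θ (i + 1)) - γ * (θ i + θ (i + 1))
  have rec3 : ∀ i : ℕ, θ ((i : ℤ) + 1) = γ + β * θ i - θ ((i : ℤ) - 1) ∧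
      θ ((i : ℤ) + 2) = γ + β * θ ((i : ℤ) + 1) - θ i ∧
      θ ((i : ℤ) + 3) = γ + β * θ ((i : ℤ) + 2) - θ ((i : ℤ) + 1) ∧
      θ ((d : ℤ) - i - 2) = γ + β * θ ((d : ℤ) - i - 1) - θ ((d : ℤ) - i) := by
    intro i
    refine ⟨r1 i, ?_, ?_, ?_⟩
    · have := r1 ((i : ℤ) + 1)
      rw [add_sub_cancel_right, add_assoc] at this
      exact this
    · have := r1 ((i : ℤ) + 2)
      rw [show (i : ℤ) + 2 + 1 = i + 3 by ring, show (i : ℤ) + 2 - 1 = i + 1 by ring] at this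
      exact this
    · have := hrec ((d : ℤ) - i - 1)
      rw [show (d : ℤ) - i - 1 - 1 = d - i - 2 by ring, sub_add_cancel] at this
      linarith
  have ph1 : ∀ i : ℕ, phi d θ x (i + 1) = x * (ssum d θ i + (θ i - θ ((d : ℤ) - i))) +
      (θ ((i : ℤ) + 1) - θ 0) * (θ i - θ d) := by
    intro i
    unfold phi
    rw [ssum_succ]
    push_cast
    rw [add_sub_cancel_right]
  have ph2 : ∀ i : ℕ, phi d θ x (i + 2) = x * (ssum d θ i + (θ i - θ ((d : ℤ) - i)) +
      (θ ((i : ℤ) + 1) - θ ((d : ℤ) - i - 1))) +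
      (θ ((i : ℤ) + 2) - θ 0) * (θ ((i : ℤ) + 1) - θ d) := by
    intro i
    rw [show i + 2 = (i + 1) + 1 by ring, ph1, ssum_succ]
    push_cast
    rw [show (i : ℤ) + 1 + 1 = i + 2 by ring, show (d : ℤ) - (i + 1) = d - i - 1 by ring]
  have ph3 : ∀ i : ℕ, phi d θ x (i + 3) = x * (ssum d θ i + (θ i - θ ((d : ℤ) - i)) +
      (θ ((i : ℤ) + 1) - θ ((d : ℤ) - i - 1)) + (θ ((i : ℤ) + 2) - θ ((d : ℤ) - i - 2))) +
      (θ ((i : ℤ) + 3) - θ 0) * (θ ((i : ℤ) + 2) - θ d) := by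
    intro i
    rw [show i + 3 = (i + 1) + 2 by ring, ph2, ssum_succ]
    push_cast
    rw [show (i : ℤ) + 1 + 1 = i + 2 by ring, show (i : ℤ) + 1 + 2 = i + 3 by ring,
      show (d : ℤ) - (i + 1) - 1 = d - i - 2 by ring, show (d : ℤ) - (i + 1) = d - i - 1 by ring]
  have ph0 : ∀ i : ℕ, phi d θ x i = x * ssum d θ i + (θ i - θ 0) * (θ ((i : ℤ) - 1) - θ d) :=
    fun i => rfl
  have hE : ∀ i, E (i + 1) = E i := by
    intro i
    obtain ⟨q1, q2, q3, q4⟩ := rec3 i
    simp only [E]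
    push_cast
    rw [show (i : ℤ) + 1 + 1 = i + 2 by ring, show i + 1 + 2 = i + 3 by ring,
      show i + 1 + 1 = i + 2 by ring, ph3 i, ph2 i, ph1 i, ph0 i, q3, q4, q2, q1]
    ring
  have hE' : ∀ i, E i = E 0 := by
    intro i
    induction i with
    | zero => rfl
    | succ i ih => rw [hE, ih]
  -- third identity
  let F : ℕ → ℝ := fun i => phi d θ x i * (θ i - θ (i + 1)) +
    phi d θ x (i + 1) * (θ i - θ (i - 1)) +
        θ i * (θ i - θ (i - 1)) * (θ i - θ (i + 1)) - γ * θ i ^ 2 - E 0 * θ i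
  have hF : ∀ i, F (i + 1) = F i := by
    intro i
    obtain ⟨q1, q2, q3, q4⟩ := rec3 i
    simp only [F]
    rw [← hE' i]
    simp only [E]
    push_cast
    rw [show (i : ℤ) + 1 + 1 = i + 2 by ring, add_sub_cancel_right,
      show i + 1 + 1 = i + 2 by ring, ph2 i, ph1 i, ph0 i, q2, q1]
    ring
  have hF' : ∀ i, F i = F 0 := by
    intro i
    induction i with
    | zero => rfl
    | succ i ih => rw [hF, ih]
  refine ⟨p0, p1, E 0, F 0, _, hρ, fun i => ?_, fun i => ?_⟩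
  · have := hE' i
    rw [← this]
    simp only [E]
    ring
  · have := hF' i
    rw [← this]
    simp only [F]
    ring

end Q7.LO
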