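import Mathlib
import Pool.Agent.Q7.LO.Stm
import Pool.Agent.Q7.LeonardBasic

set_option autoImplicit false

universe u

namespace Q7.LO

open Q7.Leonard Module

theorem repr_eig {V : Type u} [AddCommGroup V] [Module ℝ V] {d : ℕ} {A : End ℝ V}
    {t : Fin (d + 1) → ℝ} {v : Basis (Fin (d + 1)) ℝ V} (hv : ∀ i, A (v i) = t i • v i)
    (x : V) (i : Fin (d + 1)) : v.repr (A x) i = t i * v.repr x i := by
  have : (v.coord i) ∘ₗ A = t i • v.coord i := by
    refine v.ext fun j => ?_
    rw [LinearMap.comp_apply, hv, map_smul, LinearMap.smul_apply, Basis.coord_apply,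
      v.repr_self, Finsupp.single_apply]
    by_cases h : j = i
    · subst h; simp
    · simp [h]
  exact LinearMap.congr_fun this x

theorem tZero : SZERO.{u} := by
  intro d V _ _ hV θ A As β γ ρ ω η hmf hrec hρ hne hrel i j hij
  obtain ⟨v, hv⟩ := hmf.exists_basis hV
  rw [entry_eq hmf.1 hv]
  have hinj : ∀ a b : ℕ, a ≤ d → b ≤ d → θ a = θ b → a = b := by
    intro a b ha hb hab
    have := hmf.1 (a₁ := ⟨a, by omega⟩) (a₂ := ⟨b, by omega⟩) hab
    exact congrArg Fin.val this
  have h1 := congrArg (fun f : End ℝ V => v.repr (f (v j)) i) hrel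
  simp only [LinearMap.sub_apply, LinearMap.add_apply, LinearMap.smul_apply,
    Module.End.mul_apply, Module.End.one_apply, map_add, map_sub, map_smul, Finsupp.add_apply,
    Finsupp.sub_apply, Finsupp.smul_apply, repr_eig hv, hv, v.repr_self, smul_eq_mul] at h1
  have hne' : j ≠ i := by
    rintro rfl
    omega
  rw [Finsupp.single_eq_of_ne' hne'] at h1
  set m := v.repr (As (v j)) i with hm
  -- the quadratic
  have fac : ∀ a b : ℤ, θ a ^ 2 - β * θ a * θ b + θ b ^ 2 - γ * (θ a + θ b) - ρ =
      (θ a - θ (b - 1)) * (θ a - θ (b + 1)) := by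
    intro a b
    have e1 := hrec b
    have e2 := hρ b
    linear_combination (θ a - θ (b + 1)) * e1 + e2
  have h2 : (θ (i : ℕ) ^ 2 - β * θ (i : ℕ) * θ (j : ℕ) + θ (j : ℕ) ^ 2 -
      γ * (θ (i : ℕ) + θ (j : ℕ)) - ρ) * m = 0 := by
    linear_combination h1
  rcases mul_eq_zero.1 h2 with h | h
  swap
  · exact h
  exfalso
  have hi : (i : ℕ) ≤ d := by omega
  have hj : (j : ℕ) ≤ d := by omega
  have key : ∀ a b : ℕ, a ≤ d → b ≤ d → (a + 1 < b ∨ b + 1 < a) →
      (θ a - θ ((b : ℤ) - 1)) * (θ a - θ ((b : ℤ) + 1)) = 0 → b = 0 ∨ b = d := by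
    intro a b ha hb hab h0
    by_contra hcon
    push Not at hcon
    rcases mul_eq_zero.1 h0 with h3 | h3
    · have := hinj a (b - 1) ha (by omega) (by
        rw [Nat.cast_sub (by omega)]
        push_cast
        linarith)
      omega
    · have := hinj a (b + 1) ha (by omega) (by
        push_cast
        linarith)
      omega
  have k1 := key i j hi hj hij (by rw [← fac]; exact h)
  have k2 := key j i hj hi hij.symm (by rw [← fac]; linarith)
  -- so `{i, j} = {0, d}`
  have k3 : (θ 0 - θ ((d : ℤ) - 1)) * (θ 0 - θ ((d : ℤ) + 1)) = 0 := by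
    rcases k1 with k1 | k1 <;> rcases k2 with k2 | k2
    · omega
    · rw [k1, k2] at h
      rw [← fac]
      push_cast at h
      linarith
    · rw [k1, k2] at h
      rw [← fac]
      push_cast at h
      linarith
    · omega
  rcases mul_eq_zero.1 k3 with h3 | h3
  · have := hinj 0 (d - 1) (by omega) (by omega) (by
      rw [Nat.cast_sub (by omega)]
      push_cast
      linarith)
    omega
  · exact hne (by linarith)

end Q7.LO
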