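import Mathlib
import Pool.Agent.Q7.LO.Stm
import Pool.Agent.Q7.LO.Zero
import Pool.Agent.Q7.LO.Mf

set_option autoImplicit false

universe u

namespace Q7.LO

open Q7.Leonard Module Polynomial

variable {V : Type u} [AddCommGroup V] [Module ℝ V] {d : ℕ}

/-- the coordinates of `w r` in the eigenbasis -/
theorem repr_w_eig {θ φ : ℕ → ℝ} {w : ℕ → V} {A As : End ℝ V} (hs : Split d θ φ w A As)
    {v : Basis (Fin (d + 1)) ℝ V} (hv : ∀ i, A (v i) = θ (i : ℕ) • v i) (r : ℕ)
    (k : Fin (d + 1)) :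
    v.repr (w r) k = (∏ s ∈ Finset.range r, (θ k - θ s)) * v.repr (w 0) k := by
  induction r with
  | zero => simp
  | succ r ih =>
    have h1 := repr_eig (t := fun i : Fin (d + 1) => θ i) hv (w r) k
    rw [hs.hA, map_add, map_smul, Finsupp.add_apply, Finsupp.smul_apply, smul_eq_mul] at h1
    rw [Finset.prod_range_succ]
    linear_combination h1 + (θ k - θ r) * ih

theorem repr_w0_ne {θ φ : ℕ → ℝ} {w : ℕ → V} {A As : End ℝ V} (hs : Split d θ φ w A As)
    {v : Basis (Fin (d + 1)) ℝ V} (hv : ∀ i, A (v i) = θ (i : ℕ) • v i)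
    (k : Fin (d + 1)) : v.repr (w 0) k ≠ 0 := by
  intro h0
  obtain ⟨b, hb⟩ := hs.basis
  have h1 : v.coord k = 0 := by
    refine b.ext fun i => ?_
    rw [Basis.coord_apply, hb, repr_w_eig hs hv, h0, mul_zero, LinearMap.zero_apply]
  have h2 := LinearMap.congr_fun h1 (v k)
  rw [Basis.coord_apply, v.repr_self] at h2
  simp at h2

theorem repr_map {X : End ℝ V} {v : Basis (Fin (d + 1)) ℝ V} (x : V) (i : Fin (d + 1)) :
    v.repr (X x) i = ∑ k, v.repr x k * v.repr (X (v k)) i := by
  conv_lhs => rw [← v.sum_repr x]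
  rw [map_sum, map_sum, Finsupp.finsetSum_apply]
  refine Finset.sum_congr rfl fun k _ => ?_
  rw [map_smul, map_smul, Finsupp.smul_apply, smul_eq_mul]

theorem tUp : SUP.{u} := by
  intro d V _ _ θ φ w A As hs hinj hφ hz i j hij
  obtain ⟨b, hb⟩ := hs.basis
  have hV : finrank ℝ V = d + 1 := by rw [finrank_eq_card_basis b, Fintype.card_fin]
  have hmf := (tMf d V θ φ w A As hs hinj).1
  obtain ⟨v, hv⟩ := hmf.exists_basis hV
  rw [Ne, entry_eq hmf.1 hv]
  intro h0
  have h1 := repr_map (X := As) (v := v) (w j) i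
  have h2 : ∑ k, v.repr (w j) k * v.repr (As (v k)) i = 0 := by
    refine Finset.sum_eq_zero fun k _ => ?_
    rcases lt_trichotomy (k : ℕ) j with h | h | h
    · rw [repr_w_eig hs hv, Finset.prod_eq_zero (Finset.mem_range.2 h) (sub_self _)]
      simp
    · have : k = j := Fin.ext h
      rw [this, h0, mul_zero]
    · rw [(entry_eq hmf.1 hv i k).1 (hz i k (Or.inl (by omega))), mul_zero]
  rw [h2, ← hij, hs.hAs, map_add, map_smul, map_smul, Finsupp.add_apply, Finsupp.smul_apply,
    Finsupp.smul_apply, repr_w_eig hs hv (i + 1),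
    Finset.prod_eq_zero (Finset.mem_range.2 (Nat.lt_succ_self i)) (sub_self _), zero_mul,
    smul_zero, zero_add, smul_eq_mul] at h1
  have h3 := hφ (i + 1) (by omega) (by omega)
  have h4 : v.repr (w i) i ≠ 0 := by
    rw [repr_w_eig hs hv]
    refine mul_ne_zero (Finset.prod_ne_zero_iff.2 fun s hs' => ?_) (repr_w0_ne hs hv i)
    rw [Finset.mem_range] at hs'
    intro h
    have := hinj i s (by omega) (by omega) (sub_eq_zero.1 h)
    omega
  exact mul_ne_zero h3 h4 h1

end Q7.LO
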