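import Mathlib
import Pool.Agent.Q7.LO.Stm
import Pool.Agent.Q7.LO.Up

set_option autoImplicit false

universe u

namespace Q7.LO

open Q7.Leonard Module Polynomial

variable {V : Type u} [AddCommGroup V] [Module ℝ V] {d : ℕ}

/-- coordinates of `A z` in the split basis -/
theorem coord_A {θ φ : ℕ → ℝ} {w : ℕ → V} {A As : End ℝ V} (hs : Split d θ φ w A As)
    {b : Basis (Fin (d + 1)) ℝ V} (hb : ∀ i : Fin (d + 1), b i = w i) (z : V)
    (r : Fin (d + 1)) (n : ℕ) (hn : ∀ s : Fin (d + 1), n < s → b.repr z s = 0)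
    (hr : n + 1 < r) : b.repr (A z) r = 0 := by
  rw [repr_map (X := A) (v := b)]
  refine Finset.sum_eq_zero fun k _ => ?_
  rcases lt_or_ge n (k : ℕ) with h | h
  · rw [hn k h, zero_mul]
  · rw [hb, hs.hA, map_add, map_smul, Finsupp.add_apply, Finsupp.smul_apply, repr_w hs hb,
      repr_w hs hb, if_neg (by omega), if_neg (by omega)]
    simp

/-- coordinates of `As z` in the split basis -/
theorem coord_As {θ φ : ℕ → ℝ} {w : ℕ → V} {A As : End ℝ V} (hs : Split d θ φ w A As)
    {b : Basis (Fin (d + 1)) ℝ V} (hb : ∀ i : Fin (d + 1), b i = w i) (z : V)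
    (r : Fin (d + 1)) : b.repr (As z) r = θ r * b.repr z r +
      if h : (r : ℕ) + 1 < d + 1 then φ (r + 1) * b.repr z ⟨r + 1, h⟩ else 0 := by
  have e2 : ∀ i j : Fin (d + 1), b.repr (As (b j)) i =
      (if (i : ℕ) = j then θ j else 0) + if (i : ℕ) + 1 = j then φ j else 0 := by
    intro i j
    rw [hb]
    obtain ⟨j, hj⟩ := j
    rcases j with _ | j
    · simp only [hs.hAs0, map_smul, Finsupp.smul_apply, repr_w hs hb]
      simp
    · simp only [hs.hAs, map_add, map_smul, Finsupp.add_apply, Finsupp.smul_apply,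
        repr_w hs hb]
      simp
  rw [repr_map (X := As) (v := b)]
  simp only [e2, mul_add, Finset.sum_add_distrib]
  congr 1
  · rw [Finset.sum_eq_single r]
    · simp [mul_comm]
    · intro k _ hk
      rw [if_neg, mul_zero]
      intro h
      exact hk (Fin.ext h.symm)
    · simp
  · split_ifs with h
    · rw [Finset.sum_eq_single ⟨r + 1, h⟩]
      · simp [mul_comm]
      · intro k _ hk
        rw [if_neg, mul_zero]
        intro h'
        exact hk (Fin.ext h'.symm)
      · simp
    · refine Finset.sum_eq_zero fun k _ => ?_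
      rw [if_neg, mul_zero]
      omega

/-- the vector `p(A) w 0` has coordinates `p(θ k) (w 0)_k` in the eigenbasis -/
theorem repr_aeval {A : End ℝ V} {t : Fin (d + 1) → ℝ} {v : Basis (Fin (d + 1)) ℝ V}
    (hv : ∀ i, A (v i) = t i • v i) (p : ℝ[X]) (x : V) (k : Fin (d + 1)) :
    v.repr (aeval A p x) k = p.eval (t k) * v.repr x k := by
  induction p using Polynomial.induction_on' with
  | add p q hp hq =>
    rw [map_add, LinearMap.add_apply, map_add, Finsupp.add_apply, hp, hq, eval_add]
    ring
  | monomial n a =>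
    rw [aeval_monomial, eval_monomial, Module.End.mul_apply, Module.algebraMap_end_apply,
      map_smul, Finsupp.smul_apply, smul_eq_mul, mul_assoc]
    congr 1
    induction n with
    | zero => simp
    | succ n ih =>
      rw [pow_succ', Module.End.mul_apply, repr_eig hv, ih]
      ring

/-- `p(A) w 0` with `deg p < m` has coordinates `0` from `m` on in the split basis -/
theorem coord_aeval {θ φ : ℕ → ℝ} {w : ℕ → V} {A As : End ℝ V} (hs : Split d θ φ w A As)
    {b : Basis (Fin (d + 1)) ℝ V} (hb : ∀ i : Fin (d + 1), b i = w i) (p : ℝ[X]) (m : ℕ)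
    (hp : p.degree < m) (r : Fin (d + 1)) (hr : m ≤ r) : b.repr (aeval A p (w 0)) r = 0 := by
  have hpow : ∀ (n : ℕ) (r : Fin (d + 1)), n < r → b.repr ((A ^ n) (w 0)) r = 0 := by
    intro n
    induction n with
    | zero =>
      intro r hr
      rw [pow_zero, Module.End.one_apply, repr_w hs hb, if_neg (by omega)]
    | succ n ih =>
      intro r hr
      rw [pow_succ', Module.End.mul_apply]
      exact coord_A hs hb _ r n (fun s hs' => ih s hs') hr
  rw [aeval_eq_sum_range, LinearMap.sum_apply, map_sum, Finsupp.finsetSum_apply]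
  refine Finset.sum_eq_zero fun i _ => ?_
  rw [LinearMap.smul_apply, map_smul, Finsupp.smul_apply, smul_eq_mul]
  rcases lt_or_ge i m with h | h
  · rw [hpow i r (by omega), mul_zero]
  · rw [coeff_eq_zero_of_degree_lt (hp.trans_le (by exact_mod_cast h)), zero_mul]

/-- `w r = N_r(A) w 0` -/
theorem w_eq_aeval {θ φ : ℕ → ℝ} {w : ℕ → V} {A As : End ℝ V} (hs : Split d θ φ w A As)
    (r : ℕ) : w r = aeval A (∏ s ∈ Finset.range r, (X - C (θ s))) (w 0) := by
  induction r with
  | zero => simp
  | succ r ih =>
    rw [Finset.prod_range_succ, mul_comm, map_mul, Module.End.mul_apply, ← ih, map_sub, aeval_X,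
      aeval_C, LinearMap.sub_apply, Module.algebraMap_end_apply, hs.hA]
    abel

theorem tLow : SLOW.{u} := by
  intro d V _ _ θ φ w A As hs hinj hφ hz i i' hii
  obtain ⟨b, hb⟩ := hs.basis
  have hV : finrank ℝ V = d + 1 := by rw [finrank_eq_card_basis b, Fintype.card_fin]
  have hmf := (tMf d V θ φ w A As hs hinj).1
  obtain ⟨v, hv⟩ := hmf.exists_basis hV
  rw [Ne, entry_eq hmf.1 hv]
  intro h0
  have hid : (i : ℕ) ≤ d := by omega
  have hi1 : 1 ≤ (i : ℕ) := by omega
  -- the vector `x`
  set j : ℕ := d + 1 - i with hj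
  set P : ℝ[X] := ∏ k ∈ Finset.Ico (i : ℕ) (d + 1), (X - C (θ k)) with hP
  set x : V := aeval A P (w 0) with hx
  have hxv : ∀ k : Fin (d + 1), (i : ℕ) ≤ k → v.repr x k = 0 := by
    intro k hk
    rw [hx, repr_aeval hv, hP, eval_prod, Finset.prod_eq_zero
      (Finset.mem_Ico.2 ⟨hk, k.2⟩) (by simp), zero_mul]
  have hdegP : P.degree = j := by
    rw [hP, degree_prod]
    simp [hj]
  have hmP : P.Monic := monic_prod_of_monic _ _ fun k _ => monic_X_sub_C _
  set N : ℕ → ℝ[X] := fun r => ∏ s ∈ Finset.range r, (X - C (θ s)) with hN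
  have hdegN : ∀ r, (N r).degree = r := by
    intro r
    simp only [hN]
    rw [degree_prod]
    simp
  have hmN : ∀ r, (N r).Monic := fun r => monic_prod_of_monic _ _ fun k _ => monic_X_sub_C _
  set c : ℝ := ∑ s ∈ Finset.range j, θ s - ∑ k ∈ Finset.Ico (i : ℕ) (d + 1), θ k with hc
  -- the polynomial `P - N j - c N (j-1)` has degree less than `j - 1`
  have hR : (P - N j - C c * N (j - 1)).degree < (j - 1 : ℕ) := by
    rw [degree_lt_iff_coeff_zero]
    intro m hm
    have c1 : (N (j - 1)).coeff (j - 1) = 1 := by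
      have := (hmN (j - 1)).coeff_natDegree
      rwa [natDegree_eq_of_degree_eq_some (hdegN _)] at this
    rcases Nat.lt_or_ge (j - 1) m with h | h
    · have c2 : (N (j - 1)).coeff m = 0 := coeff_eq_zero_of_degree_lt (by
        rw [hdegN]; exact_mod_cast h)
      rw [coeff_sub, coeff_sub, coeff_C_mul, c2, mul_zero, sub_zero]
      rcases Nat.lt_or_ge j m with h' | h'
      · rw [coeff_eq_zero_of_degree_lt (by rw [hdegP]; exact_mod_cast h'),
          coeff_eq_zero_of_degree_lt (by rw [hdegN]; exact_mod_cast h'), sub_zero]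
      · have hmj : m = j := by omega
        have e1 := hmP.coeff_natDegree
        have e2 := (hmN j).coeff_natDegree
        rw [natDegree_eq_of_degree_eq_some hdegP] at e1
        rw [natDegree_eq_of_degree_eq_some (hdegN _)] at e2
        rw [hmj, e1, e2, sub_self]
    · have hmj : m = j - 1 := by omega
      rw [coeff_sub, coeff_sub, coeff_C_mul, hmj, c1, mul_one]
      have e1 : P.coeff (j - 1) = -∑ k ∈ Finset.Ico (i : ℕ) (d + 1), θ k := by
        have := prod_X_sub_C_coeff_card_pred (Finset.Ico (i : ℕ) (d + 1)) θ (by simp; omega)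
        rw [Nat.card_Ico] at this
        exact this
      have e2 : (N j).coeff (j - 1) = -∑ k ∈ Finset.range j, θ k := by
        have := prod_X_sub_C_coeff_card_pred (Finset.range j) θ (by simp; omega)
        rw [Finset.card_range] at this
        exact this
      rw [e1, e2, hc]
      ring
  -- coordinates of `x`
  have hxdec : x = w j + c • w (j - 1) + aeval A (P - N j - C c * N (j - 1)) (w 0) := by
    rw [w_eq_aeval hs j, w_eq_aeval hs (j - 1), map_sub, map_sub, map_mul, LinearMap.sub_apply,
      LinearMap.sub_apply, Module.End.mul_apply, aeval_C, Module.algebraMap_end_apply, hx]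
    abel
  have hxb : ∀ r : Fin (d + 1), j ≤ (r : ℕ) + 1 → b.repr x r =
      (if (r : ℕ) = j then 1 else 0) + c * if (r : ℕ) = j - 1 then 1 else 0 := by
    intro r hr
    rw [hxdec, map_add, map_add, Finsupp.add_apply, Finsupp.add_apply, map_smul,
      Finsupp.smul_apply, repr_w hs hb, repr_w hs hb,
      coord_aeval hs hb _ (j - 1) hR r (by omega), add_zero, smul_eq_mul]
  -- the vector `y`
  set y : V := As x - θ j • x with hy
  have hyb : ∀ r : Fin (d + 1), j ≤ (r : ℕ) → b.repr y r = 0 := by
    intro r hr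
    rw [hy, map_sub, map_smul, Finsupp.sub_apply, Finsupp.smul_apply, coord_As hs hb,
      hxb r (by omega)]
    have e3 : ∀ h : (r : ℕ) + 1 < d + 1, b.repr x ⟨r + 1, h⟩ = 0 := by
      intro h
      rw [hxb _ (by simp; omega)]
      simp only
      rw [if_neg (by omega), if_neg (by omega)]
      simp
    have e4 : (if h : (r : ℕ) + 1 < d + 1 then φ (r + 1) * b.repr x ⟨r + 1, h⟩ else 0) = 0 := by
      split_ifs with h
      · rw [e3 h, mul_zero]
      · rfl
    rw [e4, add_zero, smul_eq_mul, if_neg (show ¬ (r : ℕ) = j - 1 by omega)]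
    by_cases hrj : (r : ℕ) = j
    · rw [hrj]; ring
    · rw [if_neg hrj]; ring
  have hyv : ∀ k : Fin (d + 1), (i : ℕ) ≤ k → v.repr y k = 0 := by
    intro k hk
    rw [hy, map_sub, map_smul, Finsupp.sub_apply, Finsupp.smul_apply, hxv k hk, smul_zero,
      sub_zero, repr_map (X := As) (v := v)]
    refine Finset.sum_eq_zero fun l _ => ?_
    rcases lt_or_ge (l : ℕ) i with hl | hl
    · by_cases h : (l : ℕ) + 1 < k
      · rw [(entry_eq hmf.1 hv k l).1 (hz k l (Or.inr h)), mul_zero]
      · have h1 : l = i' := Fin.ext (by omega)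
        have h2 : k = i := Fin.ext (by omega)
        rw [h1, h2, h0, mul_zero]
    · rw [hxv l hl, zero_mul]
  -- `y = 0`
  have hy0 : y = 0 := by
    set q : ℝ[X] := ∑ r : Fin (d + 1), C (b.repr y r) * N r with hq
    have hyq : y = aeval A q (w 0) := by
      rw [hq, map_sum, LinearMap.sum_apply]
      conv_lhs => rw [← b.sum_repr y]
      refine Finset.sum_congr rfl fun r _ => ?_
      rw [map_mul, Module.End.mul_apply, aeval_C, Module.algebraMap_end_apply, hb,
        w_eq_aeval hs]
    have hqd : q.degree < j := by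
      rw [hq]
      refine (degree_sum_le _ _).trans_lt ?_
      rw [Finset.sup_lt_iff (by exact WithBot.bot_lt_coe j)]
      intro r _
      rcases Nat.lt_or_ge r j with h | h
      · rw [← smul_eq_C_mul]
        refine lt_of_le_of_lt (degree_smul_le _ _) ?_
        rw [hdegN]
        exact_mod_cast h
      · rw [hyb r h, C_0, zero_mul, degree_zero]
        exact WithBot.bot_lt_coe j
    have hq0 : q = 0 := by
      refine eq_zero_of_degree_lt_of_eval_finset_eq_zero
        ((Finset.Ico (i : ℕ) (d + 1)).image θ) ?_ ?_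
      · rw [Finset.card_image_of_injOn, Nat.card_Ico]
        · exact hqd
        · intro a ha b' hb' hab
          rw [Finset.mem_coe, Finset.mem_Ico] at ha hb'
          exact hinj a b' (by omega) (by omega) hab
      · intro z hz'
        rw [Finset.mem_image] at hz'
        obtain ⟨k, hk, rfl⟩ := hz'
        rw [Finset.mem_Ico] at hk
        have h1 := hyv ⟨k, hk.2⟩ hk.1
        rw [hyq, repr_aeval hv] at h1
        exact (mul_eq_zero.1 h1).resolve_right (repr_w0_ne hs hv _)
    rw [hyq, hq0, map_zero, LinearMap.zero_apply]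
  -- the coordinate at `j - 1`
  have h5 := congrArg (fun z => b.repr z ⟨j - 1, by omega⟩) hy0
  simp only [hy, map_sub, map_smul, Finsupp.sub_apply, Finsupp.smul_apply, map_zero,
    Finsupp.zero_apply, smul_eq_mul] at h5
  rw [coord_As hs hb, hxb _ (by simp; omega)] at h5
  have hj1 : 1 ≤ j := by omega
  have hjd : j ≤ d := by omega
  have e5 : (⟨j - 1 + 1, by omega⟩ : Fin (d + 1)) = ⟨j, by omega⟩ := Fin.ext (by simp; omega)
  simp only at h5
  rw [dif_pos (by omega), e5, hxb ⟨j, by omega⟩ (by simp)] at h5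
  simp only [if_true] at h5
  rw [if_neg (by omega), if_neg (by omega), show j - 1 + 1 = j by omega] at h5
  refine hφ j hj1 hjd ?_
  have e6 : ∑ h ∈ Finset.range j, (θ h - θ (d - h)) = c := by
    rw [Finset.sum_sub_distrib, hc]
    congr 1
    refine Finset.sum_bij' (fun h _ => d - h) (fun k _ => d - k) ?_ ?_ ?_ ?_ ?_
    · intro h hh
      rw [Finset.mem_range] at hh
      rw [Finset.mem_Ico]
      omega
    · intro k hk
      rw [Finset.mem_Ico] at hk
      rw [Finset.mem_range]
      omega
    · intro h hh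
      rw [Finset.mem_range] at hh
      omega
    · intro k hk
      rw [Finset.mem_Ico] at hk
      omega
    · intro h hh
      rfl
  rw [e6]
  linarith

end Q7.LO
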