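import Mathlib
import Pool.Agent.Q7.LO.Stm
import Pool.Agent.Q7.LO.Low

set_option autoImplicit false

universe u

namespace Q7.LO

open Q7.Leonard Module Polynomial

variable {V : Type u} [AddCommGroup V] [Module ℝ V] {d : ℕ}

/-- one step: if `x` is supported on `0, …, n` then `A x` is supported on `0, …, n+1` with a
nonzero multiple of the leading coordinate -/
theorem IrrTri_step {A : End ℝ V} {w : Basis (Fin (d + 1)) ℝ V} (h : IrrTri A w) (n : ℕ)
    (hn : n < d) : ∃ c : ℝ, c ≠ 0 ∧ ∀ x : V, (∀ s : Fin (d + 1), n < s → w.repr x s = 0) →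
      (∀ s : Fin (d + 1), n + 1 < s → w.repr (A x) s = 0) ∧
      w.repr (A x) ⟨n + 1, by omega⟩ = c * w.repr x ⟨n, by omega⟩ := by
  refine ⟨w.repr (A (w ⟨n, by omega⟩)) ⟨n + 1, by omega⟩, h.ne_zero _ _ (Or.inr rfl),
    fun x hx => ⟨fun s hs => ?_, ?_⟩⟩
  · rw [repr_map (X := A) (v := w)]
    refine Finset.sum_eq_zero fun k _ => ?_
    rcases lt_or_ge n (k : ℕ) with hk | hk
    · rw [hx k hk, zero_mul]
    · rw [h.zero s k (Or.inr (by omega)), mul_zero]
  · rw [repr_map (X := A) (v := w), Finset.sum_eq_single ⟨n, by omega⟩]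
    · ring
    · intro k _ hk
      rcases lt_trichotomy (k : ℕ) n with h1 | h1 | h1
      · rw [h.zero _ k (Or.inr (by simp; omega)), mul_zero]
      · exact absurd (Fin.ext h1) hk
      · rw [hx k h1, zero_mul]
    · simp

theorem tRec : SREC.{u} := by
  intro d V _ _ hV A As θ θs h
  rcases Nat.lt_or_ge d 3 with hd | hd
  · -- small diameter
    rcases Nat.lt_or_ge d 2 with hd2 | hd2
    · exact ⟨0, 0, fun i hi => by omega⟩
    · have hd' : d = 2 := by omega
      subst hd'
      refine ⟨0, θ ⟨0, by omega⟩ + θ ⟨2, by omega⟩, fun i hi => ?_⟩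
      have : i = 0 := by omega
      subst this
      ring
  obtain ⟨v, hv⟩ := h.mf.exists_basis hV
  obtain ⟨w, hw⟩ := h.mfs.exists_basis hV
  have hM := h.irrTri hv
  have hL := h.irrTri_s hw
  -- the numbers `z`
  let t : ℕ → ℝ := fun j => if h : j < d + 1 then θ ⟨j, h⟩ else 0
  have ht : ∀ i : Fin (d + 1), t i = θ i := fun i => dif_pos i.2
  let z : ℕ → ℝ := fun j => -∑ s ∈ Finset.range j, t s * t (s + 1) * (t s - t (s + 1))
  have hz : ∀ j, z j - z (j + 1) = t j * t (j + 1) * (t j - t (j + 1)) := by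
    intro j
    simp only [z, Finset.sum_range_succ]
    ring
  -- the interpolating polynomial
  set f : ℝ[X] := Lagrange.interpolate Finset.univ θ (fun i : Fin (d + 1) => z i) with hf
  have hfe : ∀ i : Fin (d + 1), f.eval (θ i) = z i := fun i =>
    Lagrange.eval_interpolate_at_node _ h.mf.1.injOn (Finset.mem_univ i)
  have hfd : f.degree < (d + 1 : ℕ) := by
    have := Lagrange.degree_interpolate_lt (s := Finset.univ) (v := θ)
      (fun i : Fin (d + 1) => z i) h.mf.1.injOn
    rwa [Finset.card_univ, Fintype.card_fin] at this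
  -- the commutation relation
  have hcomm : A * A * As * A - A * As * A * A = aeval A f * As - As * aeval A f := by
    refine v.ext fun j => v.repr.injective ?_
    ext i
    simp only [LinearMap.sub_apply, Module.End.mul_apply, map_sub, Finsupp.sub_apply,
      repr_eig hv, repr_aeval hv, hfe]
    have hvj : aeval A f (v j) = z j • v j := by
      have he : A.HasEigenvector (θ j) (v j) :=
        ⟨End.mem_eigenspace_iff.2 (hv j), v.ne_zero j⟩
      rw [End.aeval_apply_of_hasEigenvector he, hfe]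
    rw [hvj]
    simp only [hv, map_smul, Finsupp.smul_apply, smul_eq_mul]
    rcases lt_trichotomy (i : ℕ) j with h1 | h1 | h1
    · rcases Nat.lt_or_ge ((i : ℕ) + 1) j with h2 | h2
      · rw [hM.zero i j (Or.inl h2)]; ring
      · have e := hz i
        have h3 : (i : ℕ) + 1 = j := by omega
        rw [h3, ht, ht] at e
        linear_combination -(v.repr (As (v j)) i) * e
    · have : i = j := Fin.ext h1
      subst this
      ring
    · rcases Nat.lt_or_ge ((j : ℕ) + 1) i with h2 | h2
      · rw [hM.zero i j (Or.inr h2)]; ring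
      · have e := hz j
        have h3 : (j : ℕ) + 1 = i := by omega
        rw [h3, ht, ht] at e
        linear_combination (v.repr (As (v j)) i) * e
  -- coordinates in the basis `w`
  have step : ∀ n : ℕ, n < d → ∃ c : ℝ, c ≠ 0 ∧ ∀ x : V,
      (∀ s : Fin (d + 1), n < s → w.repr x s = 0) →
      (∀ s : Fin (d + 1), n + 1 < s → w.repr (A x) s = 0) ∧
      ∀ (h1 : n + 1 < d + 1) (h2 : n < d + 1),
        w.repr (A x) ⟨n + 1, h1⟩ = c * w.repr x ⟨n, h2⟩ := by
    intro n hn
    obtain ⟨c, hc, hx⟩ := IrrTri_step hL n hn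
    exact ⟨c, hc, fun x hx' => ⟨(hx x hx').1, fun _ _ => (hx x hx').2⟩⟩
  choose! c hc0 hc using step
  have hAs : ∀ (x : V) (s : Fin (d + 1)), w.repr (As x) s = θs s * w.repr x s :=
    fun x s => repr_eig hw x s
  -- powers
  have hpow : ∀ n : ℕ, (∀ s : Fin (d + 1), n < s → w.repr ((A ^ n) (w 0)) s = 0) ∧
      ∀ h1 : n < d + 1, w.repr ((A ^ n) (w 0)) ⟨n, h1⟩ = ∏ s ∈ Finset.range n, c s := by
    intro n
    induction n with
    | zero =>
      refine ⟨fun s hs => ?_, fun h1 => ?_⟩
      · rw [pow_zero, Module.End.one_apply, w.repr_self, Finsupp.single_eq_of_ne]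
        rintro rfl
        simp at hs
      · rw [pow_zero, Module.End.one_apply, w.repr_self]
        simp
    | succ n ih =>
      refine ⟨fun s hs => ?_, fun h1 => ?_⟩
      · rw [pow_succ', Module.End.mul_apply]
        exact (hc n (by omega) _ ih.1).1 s hs
      · rw [pow_succ', Module.End.mul_apply, (hc n (by omega) _ ih.1).2 h1 (by omega),
          ih.2 (by omega), Finset.prod_range_succ]
        ring
  have hpow0 : ∀ n, n ≤ d → ∏ s ∈ Finset.range n, c s ≠ 0 := fun n hn =>
    Finset.prod_ne_zero_iff.2 fun s hs => hc0 s (by rw [Finset.mem_range] at hs; omega)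
  -- the coordinates of `f(A) w 0`
  have hfA : ∀ s : Fin (d + 1), f.natDegree ≤ s →
      w.repr (aeval A f (w 0)) s = f.coeff s * ∏ r ∈ Finset.range s, c r := by
    intro s hs
    rw [aeval_eq_sum_range, LinearMap.sum_apply, map_sum, Finsupp.finsetSum_apply]
    rcases hs.lt_or_eq with h1 | h1
    · rw [coeff_eq_zero_of_natDegree_lt h1, zero_mul]
      refine Finset.sum_eq_zero fun i hi => ?_
      rw [Finset.mem_range] at hi
      rw [LinearMap.smul_apply, map_smul, Finsupp.smul_apply, (hpow i).1 s (by omega),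
        smul_zero]
    · rw [Finset.sum_range_succ, Finset.sum_eq_zero, zero_add, LinearMap.smul_apply, map_smul,
        Finsupp.smul_apply, smul_eq_mul, h1]
      · congr 1
        exact (hpow s).2 s.2
      · intro i hi
        rw [Finset.mem_range] at hi
        rw [LinearMap.smul_apply, map_smul, Finsupp.smul_apply, (hpow i).1 s (by omega),
          smul_zero]
  -- both sides of the relation applied to `w 0`
  have rhs : ∀ s : Fin (d + 1), w.repr ((aeval A f * As - As * aeval A f) (w 0)) s =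
      (θs 0 - θs s) * w.repr (aeval A f (w 0)) s := by
    intro s
    rw [LinearMap.sub_apply, Module.End.mul_apply, Module.End.mul_apply, hw, map_smul, map_sub,
      map_smul, Finsupp.sub_apply, Finsupp.smul_apply, hAs, smul_eq_mul]
    ring
  have a1 := hpow 1
  rw [pow_one] at a1
  have a2 := hpow 2
  rw [pow_two, Module.End.mul_apply] at a2
  have b1 : ∀ s : Fin (d + 1), 1 < (s : ℕ) → w.repr (As (A (w 0))) s = 0 := by
    intro s hs
    rw [hAs, a1.1 s hs, mul_zero]
  have b2 := hc 1 (by omega) _ b1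
  have b3 := hc 2 (by omega) _ b2.1
  have c1 : ∀ s : Fin (d + 1), 2 < (s : ℕ) → w.repr (As (A (A (w 0)))) s = 0 := by
    intro s hs
    rw [hAs, a2.1 s hs, mul_zero]
  have c2 := hc 2 (by omega) _ c1
  have lhs0 : ∀ s : Fin (d + 1), 3 < (s : ℕ) →
      w.repr ((A * A * As * A - A * As * A * A) (w 0)) s = 0 := by
    intro s hs
    rw [LinearMap.sub_apply, map_sub, Finsupp.sub_apply]
    simp only [Module.End.mul_apply]
    rw [b3.1 s hs, c2.1 s hs, sub_zero]
  have lhs3 : w.repr ((A * A * As * A - A * As * A * A) (w 0)) ⟨3, by omega⟩ =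
      (θs ⟨1, by omega⟩ - θs ⟨2, by omega⟩) * ∏ r ∈ Finset.range 3, c r := by
    rw [LinearMap.sub_apply, map_sub, Finsupp.sub_apply]
    simp only [Module.End.mul_apply]
    rw [b3.2 (by omega) (by omega), b2.2 (by omega) (by omega), c2.2 (by omega) (by omega),
      hAs, hAs, a1.2 (by omega), a2.2 (by omega)]
    simp only [Finset.prod_range_succ, Finset.prod_range_zero]
    ring
  -- the degree of `f`
  have hdeg : f.natDegree ≤ 3 := by
    by_contra hcon
    push Not at hcon
    have hf0 : f ≠ 0 := by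
      rintro h0
      rw [h0, natDegree_zero] at hcon
      omega
    have hnd : f.natDegree < d + 1 := by
      rw [natDegree_lt_iff_degree_lt hf0]
      exact hfd
    have h1 := lhs0 ⟨f.natDegree, hnd⟩ hcon
    rw [hcomm, rhs, hfA _ le_rfl] at h1
    rcases mul_eq_zero.1 h1 with h2 | h2
    · have := h.mfs.1 (sub_eq_zero.1 h2)
      have := congrArg Fin.val this
      simp at this
      omega
    · rcases mul_eq_zero.1 h2 with h3 | h3
      · exact hf0 (leadingCoeff_eq_zero.1 h3)
      · exact hpow0 _ (by simp; omega) h3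
  have h3 : f.coeff 3 ≠ 0 := by
    intro h0
    have h1 := lhs3
    rw [hcomm, rhs, hfA _ hdeg] at h1
    simp only [h0, zero_mul, mul_zero] at h1
    rcases mul_eq_zero.1 h1.symm with h2 | h2
    · have := h.mfs.1 (sub_eq_zero.1 h2)
      have := congrArg Fin.val this
      simp at this
    · exact hpow0 3 hd h2
  -- evaluation of `f`
  have hev : ∀ a : ℝ, f.eval a = f.coeff 0 + f.coeff 1 * a + f.coeff 2 * a ^ 2 +
      f.coeff 3 * a ^ 3 := by
    intro a
    rw [eval_eq_sum_range' (n := 4) (by omega)]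
    simp only [Finset.sum_range_succ, Finset.sum_range_zero]
    ring
  have key : ∀ (i : ℕ) (h1 : i < d + 1) (h2 : i + 1 < d + 1),
      f.coeff 3 * (θ ⟨i, h1⟩ ^ 2 + θ ⟨i, h1⟩ * θ ⟨i + 1, h2⟩ + θ ⟨i + 1, h2⟩ ^ 2) +
        f.coeff 2 * (θ ⟨i, h1⟩ + θ ⟨i + 1, h2⟩) + f.coeff 1 = θ ⟨i, h1⟩ * θ ⟨i + 1, h2⟩ := by
    intro i h1 h2
    have e := hz i
    have e1 := hfe ⟨i, h1⟩
    have e2 := hfe ⟨i + 1, h2⟩
    have e3 := ht ⟨i, h1⟩
    have e4 := ht ⟨i + 1, h2⟩
    simp only at e1 e2 e3 e4
    rw [← e1, ← e2, e3, e4, hev, hev] at e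
    have hne : θ ⟨i, h1⟩ - θ ⟨i + 1, h2⟩ ≠ 0 := by
      intro h0
      have := h.mf.1 (sub_eq_zero.1 h0)
      have := congrArg Fin.val this
      simp at this
    refine mul_left_cancel₀ hne ?_
    linear_combination e
  refine ⟨1 / f.coeff 3 - 1, -f.coeff 2 / f.coeff 3, fun i hi => ?_⟩
  have k1 := key i (by omega) (by omega)
  have k2 := key (i + 1) (by omega) (by omega)
  have hne : θ ⟨i, by omega⟩ - θ ⟨i + 1 + 1, by omega⟩ ≠ 0 := by
    intro h0
    have := h.mf.1 (sub_eq_zero.1 h0)
    have h9 : i = i + 1 + 1 := congrArg Fin.val this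
    omega
  have k3 : f.coeff 3 * (θ ⟨i, by omega⟩ + θ ⟨i + 1, by omega⟩ + θ ⟨i + 1 + 1, by omega⟩) +
      f.coeff 2 = θ ⟨i + 1, by omega⟩ := by
    refine mul_left_cancel₀ hne ?_
    linear_combination k1 - k2
  have k4 : (⟨i + 2, by omega⟩ : Fin (d + 1)) = ⟨i + 1 + 1, by omega⟩ := rfl
  rw [k4]
  field_simp
  linear_combination k3

end Q7.LO
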