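import Mathlib
import Pool.Agent.Q7.LO.Stm
import Pool.Agent.Q7.LO.Dist

set_option autoImplicit false

namespace Q7.LO

theorem tRotg : SROTG := by
  intro d σ h
  obtain ⟨n, m, l, hn1, hn2, hmn, hco, hl, hodd, hmono⟩ := h
  have hn : 0 < n := by omega
  have hn' : (0 : ℝ) < n := by exact_mod_cast hn
  have hpi := Real.pi_pos
  refine ⟨fun j => Real.cos (Real.pi * (4 * m * j + l) / (2 * n)),
    2 * Real.cos (2 * Real.pi * m / n), 0, fun i => ?_, fun i j hij => ?_, fun heq => ?_⟩
  · set x := Real.pi * (4 * m * (i : ℝ) + l) / (2 * n) with hx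
    set y := 2 * Real.pi * m / n with hy
    have e1 : Real.pi * (4 * m * ((i - 1 : ℤ) : ℝ) + l) / (2 * n) = x - y := by
      rw [hx, hy]
      push_cast
      field_simp
      ring
    have e2 : Real.pi * (4 * m * ((i + 1 : ℤ) : ℝ) + l) / (2 * n) = x + y := by
      rw [hx, hy]
      push_cast
      field_simp
      ring
    simp only [e1, e2]
    rw [Real.cos_sub, Real.cos_add]
    ring
  · have h1 := hmono hij
    simp only at h1 ⊢
    rw [← cos_order_iff hn] at h1
    push_cast at h1 ⊢
    exact h1
  · simp only at heq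
    rw [Real.cos_eq_cos_iff] at heq
    obtain ⟨k, hk⟩ := heq
    push_cast at hk
    rcases hk with hk | hk
    · have h1 : (m : ℝ) * (d + 1) = -(n * k) := by
        field_simp at hk
        nlinarith
      have h2 : (m : ℤ) * (d + 1) = -(n * k) := by exact_mod_cast h1
      have h3 : (n : ℤ) ∣ (m : ℤ) * (d + 1) := ⟨-k, by rw [h2]; ring⟩
      have h4 : n ∣ m * (d + 1) := by exact_mod_cast h3
      have h5 : n ∣ d + 1 := (Nat.Coprime.dvd_of_dvd_mul_left hco.symm h4)
      have := Nat.le_of_dvd (by omega) h5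
      omega
    · have h1 : (l : ℝ) = 2 * (n * k - m * (d + 1)) := by
        field_simp at hk
        nlinarith
      have h2 : (l : ℤ) = 2 * (n * k - m * (d + 1)) := by exact_mod_cast h1
      obtain ⟨c, hc⟩ := hodd
      omega

end Q7.LO
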