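import Mathlib
import Pool.Agent.Q7.LO.Stm

set_option autoImplicit false

universe u

namespace Q7.LO

open Q7.Leonard Module

theorem tSplit : SSPLIT.{u} := by
  intro d V _ _ hV θ φ hφ
  have hfin : FiniteDimensional ℝ V := FiniteDimensional.of_finrank_pos (by omega)
  let b : Basis (Fin (d + 1)) ℝ V := finBasisOfFinrankEq ℝ V hV
  let w : ℕ → V := fun i => if h : i < d + 1 then b ⟨i, h⟩ else 0
  have hw : ∀ (i : ℕ) (h : i < d + 1), w i = b ⟨i, h⟩ := fun i h => dif_pos h
  have hw0 : ∀ i, d < i → w i = 0 := fun i h => dif_neg (by omega)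
  refine ⟨w, b.constr ℝ fun i : Fin (d + 1) => θ i • w i + w (i + 1),
    b.constr ℝ fun i : Fin (d + 1) =>
      θ i • w i + if (i : ℕ) = 0 then 0 else φ i • w (i - 1),
    ⟨b, fun i => (hw i i.2).symm⟩, hw0, ?_, ?_, ?_⟩
  · intro i
    by_cases hi : i < d + 1
    · rw [hw i hi, b.constr_basis, hw i hi]
    · rw [hw0 i (by omega), hw0 (i + 1) (by omega)]
      simp
  · rw [hw 0 (by omega), b.constr_basis]
    simp [hw 0 (by omega)]
  · intro i
    by_cases hi : i + 1 < d + 1
    · rw [hw (i + 1) hi, b.constr_basis]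
      simp [hw (i + 1) hi]
    · by_cases hi' : i = d
      · subst hi'
        rw [hw0 (i + 1) (by omega), hφ]
        simp
      · rw [hw0 (i + 1) (by omega), hw0 i (by omega)]
        simp

end Q7.LO
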