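import Mathlib
import Pool.Agent.Q7.LO.Stm

set_option autoImplicit false

namespace Q7.LO

theorem tX : SX := by
  intro d θ hθ
  classical
  let bad : Finset ℝ := (Finset.range (d + 1)).image
      (fun i : ℕ => -((θ i - θ 0) * (θ (i - 1) - θ d)) / ssum d θ i) ∪
    (Finset.range (d + 1)).image
      (fun i : ℕ => (ssum d θ i * (θ i - θ (i - 1)) -
        (θ i - θ 0) * (θ (i - 1) - θ d)) / ssum d θ i)
  obtain ⟨x, hx⟩ := Infinite.exists_notMem_finset bad
  refine ⟨x, fun i h1 h2 => ?_⟩
  have hne : (θ i - θ 0) * (θ (i - 1) - θ d) ≠ 0 := by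
    refine mul_ne_zero (sub_ne_zero.2 fun h => ?_) (sub_ne_zero.2 fun h => ?_)
    · have := hθ i 0 h2 (by omega) (by simpa using h)
      omega
    · have := hθ (i - 1) d (by omega) le_rfl (by rw [Nat.cast_sub h1]; simpa using h)
      omega
  have hx1 : x ∉ (Finset.range (d + 1)).image
      (fun i : ℕ => -((θ i - θ 0) * (θ (i - 1) - θ d)) / ssum d θ i) := fun h =>
    hx (Finset.mem_union_left _ h)
  have hx2 : x ∉ (Finset.range (d + 1)).image
      (fun i : ℕ => (ssum d θ i * (θ i - θ (i - 1)) -
        (θ i - θ 0) * (θ (i - 1) - θ d)) / ssum d θ i) := fun h =>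
    hx (Finset.mem_union_right _ h)
  by_cases hS : ssum d θ i = 0
  · unfold phi
    rw [hS]
    constructor
    · simpa using hne
    · simpa using hne
  · constructor
    · intro h
      apply hx1
      rw [Finset.mem_image]
      refine ⟨i, Finset.mem_range.2 (by omega), ?_⟩
      rw [div_eq_iff hS]
      unfold phi at h
      linarith
    · intro h
      apply hx2
      rw [Finset.mem_image]
      refine ⟨i, Finset.mem_range.2 (by omega), ?_⟩
      rw [div_eq_iff hS]
      unfold phi at h
      linarith

end Q7.LO
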